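import Pool.Agent.Lib.MP_6b2d39_agUp.P2End
import Pool.Agent.Lib.MP_6b2d39_agUp.P2Ab
import Pool.Agent.Lib.MP_6b2d39_agUn.EmpT
import Pool.Agent.Lib.MP_6b2d39_agUn.AppU
import Pool.Agent.Lib.MP_6b2d39_agUn.Lower
import Pool.Agent.Lib.MP_6b2d39_agHl.ToGen
import Pool.Agent.Lib.MP_6b2d39_agHy.EmpCut

set_option autoImplicit false

namespace Pool.Agent.Lib.MP_6b2d39_agUp

open Pool.Agent.Lib.MP_6b2d39_agUn

open Pool.Agent.Lib.MP_6b2d39_agArr Pool.Agent.Lib.MP_6b2d39_agNw Pool.Agent.Lib.MP_6b2d39_agHl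
  Pool.Agent.Lib.MP_6b2d39_agCr

/-- (`v ≤ -W`): `lower_u`, `ar_negY` with `v0 = vd d μ'` (`rq_sum`; `ms` is the sum of the
`(μ i + 1).choose 2`), `emp_rq`, `emp_mul` -/
theorem neg_y {n d M q X W Y : ℕ} (h : NcY M (d + 1) q X W Y) {μ : Fin n → ℕ} (hμ : ∀ i, μ i ≤ M)
    (hv : vd d μ ≤ -(W : ℤ)) : EmpQ (dgm (tri (d + 1)) (d + 1)) μ Finset.univ := by
  have hq : 1 ≤ q := by
    have := h.hq
    omega
  obtain ⟨μ', h1, h2, h3⟩ := lower_u hμ hv
  refine emp_mul h1 (emp_rq hq (by omega) ?_)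
  refine ar_negY (ab_ofY h) (row_qY h) (fun i _ => (h1 i).trans (hμ i)) (v0 := vd d μ') ?_ h2 h3
  have e1 := rq_sum (N := d + 1) hq
  have e2 : ∑ b ∈ Finset.range ((d + 1 + q - 1) / q), (rq q (d + 1) b : ℤ) =
      (((d + 1 + 1).choose 2 : ℕ) : ℤ) := by
    rw [← e1]
    push_cast
    rfl
  rw [e2]
  unfold vd ms
  have e3 : ∀ i, ((μ' i * (μ' i + 1) / 2 : ℕ) : ℤ) = (((μ' i + 1).choose 2 : ℕ) : ℤ) := by
    intro i
    rw [Nat.choose_two_right, Nat.add_sub_cancel, Nat.mul_comm]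
  simp only [e3]
  ring

/-- (`W ≤ v ≤ W + M^2`): `ar_posY` on `Fin n ⊕ Fin v`, `emp_rq` -/
theorem pos_y {n d M q X W Y : ℕ} (h : NcY M (d + 1) q X W Y) {μ : Fin n → ℕ} (hμ : ∀ i, μ i ≤ M)
    (hv1 : (W : ℤ) ≤ vd d μ) (hv2 : vd d μ ≤ W + M ^ 2) :
    EmpQ (dgm (tri (d + 1)) (d + 1))
      (Sum.elim μ (fun _ => 1) : Fin n ⊕ Fin (vd d μ).toNat → ℕ) Finset.univ := by
  have hq : 1 ≤ q := by
    have := h.hq
    omega
  refine emp_rq hq (by omega) ?_
  set v := vd d μ with hvd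
  have hv0 : (0 : ℤ) ≤ v := le_trans (by positivity) hv1
  have hu : (Finset.univ : Finset (Fin n ⊕ Fin v.toNat)) =
      (Finset.univ : Finset (Fin n)).map Function.Embedding.inl ∪
        (Finset.univ : Finset (Fin v.toNat)).map Function.Embedding.inr := by
    ext x
    rcases x with x | x <;> simp
  rw [hu]
  have hcard : ((Finset.univ : Finset (Fin v.toNat)).map
      (Function.Embedding.inr : Fin v.toNat ↪ Fin n ⊕ Fin v.toNat)).card = v.toNat := by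
    rw [Finset.card_map, Finset.card_univ, Fintype.card_fin]
  refine ar_posY (ab_ofY h) (row_qY h) ?_ ?_ ?_ ?_ ?_ ?_
  · rw [Finset.disjoint_left]
    intro x hx hx'
    rw [Finset.mem_map] at hx hx'
    obtain ⟨a, _, rfl⟩ := hx
    obtain ⟨b, _, hb⟩ := hx'
    exact Sum.inr_ne_inl hb
  · intro i hi
    rw [Finset.mem_map] at hi
    obtain ⟨a, _, rfl⟩ := hi
    exact hμ a
  · intro i hi
    rw [Finset.mem_map] at hi
    obtain ⟨a, _, rfl⟩ := hi
    rfl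
  · have e1 := rq_sum (N := d + 1) hq
    have e2 : ∑ b ∈ Finset.range ((d + 1 + q - 1) / q), (rq q (d + 1) b : ℤ) =
        (((d + 1 + 1).choose 2 : ℕ) : ℤ) := by
      rw [← e1]
      push_cast
      rfl
    rw [e2, hcard, Int.toNat_of_nonneg hv0, hvd]
    unfold vd ms
    rw [Finset.sum_map]
    have e3 : ∀ i, ((μ i * (μ i + 1) / 2 : ℕ) : ℤ) = (((μ i + 1).choose 2 : ℕ) : ℤ) := by
      intro i
      rw [Nat.choose_two_right, Nat.add_sub_cancel, Nat.mul_comm]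
    simp only [Function.Embedding.inl_apply, Sum.elim_inl, e3]
    ring
  · rw [hcard]
    omega
  · rw [hcard]
    have h3 : ((v.toNat : ℕ) : ℤ) ≤ ((W + M ^ 2 : ℕ) : ℤ) := by
      rw [Int.toNat_of_nonneg hv0]
      push_cast
      exact hv2
    exact_mod_cast h3

/-- (the window): `neg_y` (`emp_inl`, `general_of_emp`) and `upper_u`, `pos_y`,
`general_of_emp`, `app_u` -/
theorem win_y {n d M q X W Y : ℕ} (h : NcY M (d + 1) q X W Y) {μ : Fin n → ℕ} (hμ : ∀ i, μ i ≤ M)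
    (hv : (W : ℤ) ≤ |vd d μ|) :
    General (fun P => (Module.finrank ℂ (curves d μ P) : ℤ) = max (vd d μ) 0) := by
  rcases le_or_gt 0 (vd d μ) with h0 | h0
  · have hv1 : (W : ℤ) ≤ vd d μ := by rwa [abs_of_nonneg h0] at hv
    obtain ⟨k, hk1, hk2⟩ := upper_u h.hM hv1
    have hW : (0 : ℤ) ≤ W := by positivity
    refine app_u (k := k) (c := M) μ (hW.trans hk1) (general_of_emp (pos_y h (fun i => ?_) hk1 hk2))
    refine Fin.addCases (fun j => ?_) (fun j => ?_) i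
    · rw [Fin.append_left]
      exact hμ j
    · rw [Fin.append_right]
  · have hv1 : vd d μ ≤ -(W : ℤ) := by
      rw [abs_of_neg h0] at hv
      linarith
    exact general_of_emp (Pool.Agent.Lib.MP_6b2d39_agHy.emp_inl (neg_y h hμ hv1))

end Pool.Agent.Lib.MP_6b2d39_agUp
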