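import Pool.Agent.Lib.MP_6b2d39_agUp.P2Num
import Pool.Agent.Lib.MP_6b2d39_agUp.P2Win
import Pool.Agent.Lib.MP_6b2d39_agUn.MainU
import Pool.Agent.Lib.MP_6b2d39_agUn.DimU

set_option autoImplicit false

namespace Pool.Agent.Lib.MP_6b2d39_agUp

open Pool.Agent.Lib.MP_6b2d39_agUn

open Pool.Agent.Lib.MP_6b2d39_agArr Pool.Agent.Lib.MP_6b2d39_agNw Pool.Agent.Lib.MP_6b2d39_agHl
  Pool.Agent.Lib.MP_6b2d39_agCr

/-- `log (M + 2) ≤ 16 log (r + 2)` if `M ≤ r ^ 16` -/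
private theorem log_le16 {M : ℕ} {r : ℝ} (hr : 0 < r) (h : (M : ℝ) ≤ r ^ 16) :
    Real.log (M + 2) ≤ 16 * Real.log (r + 2) := by
  have h1 : (M : ℝ) + 2 ≤ (r + 2) ^ 16 := by
    have h2 : r ^ 15 ≤ (r + 2) ^ 15 := pow_le_pow_left₀ hr.le (by linarith) 15
    have h3 : 1 ≤ (r + 2) ^ 15 := one_le_pow₀ (by linarith)
    have h4 : r * r ^ 15 ≤ r * (r + 2) ^ 15 := mul_le_mul_of_nonneg_left h2 hr.le
    have h5 : r * r ^ 15 = r ^ 16 := by ring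
    have h6 : (r + 2) ^ 16 = r * (r + 2) ^ 15 + 2 * (r + 2) ^ 15 := by ring
    linarith
  have h2 : Real.log (M + 2) ≤ Real.log ((r + 2) ^ 16) := by
    apply Real.log_le_log _ h1
    positivity
  rw [Real.log_pow] at h2
  push_cast at h2
  exact h2

/-- THEOREM U+ -/
theorem main_up : ∃ C : ℝ, 1 ≤ C ∧ ∀ (n d M : ℕ) (μ : Fin n → ℕ), 1 ≤ M → (∀ i, μ i ≤ M) →
    C * ((M : ℝ) ^ (9 / 8 : ℝ) + (M : ℝ) ^ 6 / ((d : ℝ) + 1) ^ 4) *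
      Real.log (((d : ℝ) + 1) / M + 2) ^ 3 ≤ |((vd d μ : ℤ) : ℝ)| →
    General (fun P => (Module.finrank ℂ (curves d μ P) : ℤ) = max (vd d μ) 0) := by
  obtain ⟨C0, hC0, hU⟩ := main_u
  refine ⟨max (4096 * C0) (10 ^ 44), le_trans (by norm_num) (le_max_right _ _),
    fun n d M μ hM hμ hv => ?_⟩
  obtain ⟨C, hC⟩ : ∃ C, C = max (4096 * C0) (10 ^ 44) := ⟨_, rfl⟩
  rw [← hC] at hv
  have hC1 : 4096 * C0 ≤ C := by rw [hC]; exact le_max_left _ _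
  have hC2 : 10 ^ 44 ≤ C := by rw [hC]; exact le_max_right _ _
  have hm : (1 : ℝ) ≤ M := by exact_mod_cast hM
  have e0 : ((d + 1 : ℕ) : ℝ) = (d : ℝ) + 1 := by push_cast; ring
  have hab : ((|vd d μ| : ℤ) : ℝ) = |((vd d μ : ℤ) : ℝ)| := Int.cast_abs
  obtain ⟨r, hr⟩ : ∃ r : ℝ, r = ((d : ℝ) + 1) / M := ⟨_, rfl⟩
  rw [← hr] at hv
  have hr0 : 0 < r := by
    rw [hr]
    positivity
  have hl0 : 0 ≤ Real.log (r + 2) := Real.log_nonneg (by linarith)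
  have hA : 0 ≤ (M : ℝ) ^ (9 / 8 : ℝ) + (M : ℝ) ^ 6 / ((d : ℝ) + 1) ^ 4 := by positivity
  rcases le_or_gt (6 * (M : ℤ) ^ 2) |vd d μ| with h2 | h2
  · exact triv_u hM hμ h2
  · have h3 : |((vd d μ : ℤ) : ℝ)| < 6 * (M : ℝ) ^ 2 := by
      rw [← hab]
      exact_mod_cast h2
    rcases le_or_gt (r ^ 16) (M : ℝ) with h4 | h4
    · -- case A
      obtain ⟨q, X, Y, hN⟩ := ch_y (M := M) (N := d + 1) (r := r) (C := C) hM (by omega)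
        (by rw [e0]; exact hr) hC2 h4 (by rw [e0]; exact lt_of_le_of_lt hv h3)
      rw [e0] at hN
      refine win_y hN hμ ?_
      have h5 : (0 : ℝ) ≤ C * ((M : ℝ) ^ (9 / 8 : ℝ) + (M : ℝ) ^ 6 / ((d : ℝ) + 1) ^ 4) *
          Real.log (r + 2) ^ 3 := by
        have : 0 ≤ C := le_trans (by norm_num) hC2
        positivity
      have h6 := (Nat.floor_le h5).trans hv
      rw [← hab] at h6
      exact_mod_cast h6
    · -- case B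
      refine hU n d M μ hM hμ (le_trans ?_ hv)
      have h5 := log_le16 hr0 h4.le
      have hlM : 0 ≤ Real.log ((M : ℝ) + 2) := Real.log_nonneg (by linarith)
      have h6 : Real.log ((M : ℝ) + 2) ^ 3 ≤ (16 * Real.log (r + 2)) ^ 3 :=
        pow_le_pow_left₀ hlM h5 3
      have h7 : C0 * ((M : ℝ) ^ (9 / 8 : ℝ) + (M : ℝ) ^ 6 / ((d : ℝ) + 1) ^ 4) *
          Real.log ((M : ℝ) + 2) ^ 3 ≤
          C0 * ((M : ℝ) ^ (9 / 8 : ℝ) + (M : ℝ) ^ 6 / ((d : ℝ) + 1) ^ 4) *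
          (16 * Real.log (r + 2)) ^ 3 :=
        mul_le_mul_of_nonneg_left h6 (mul_nonneg (by linarith) hA)
      have h8 : C0 * ((M : ℝ) ^ (9 / 8 : ℝ) + (M : ℝ) ^ 6 / ((d : ℝ) + 1) ^ 4) *
          (16 * Real.log (r + 2)) ^ 3 =
          4096 * C0 * (((M : ℝ) ^ (9 / 8 : ℝ) + (M : ℝ) ^ 6 / ((d : ℝ) + 1) ^ 4) *
          Real.log (r + 2) ^ 3) := by ring
      have h9 : 4096 * C0 * (((M : ℝ) ^ (9 / 8 : ℝ) + (M : ℝ) ^ 6 / ((d : ℝ) + 1) ^ 4) *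
          Real.log (r + 2) ^ 3) ≤ C * (((M : ℝ) ^ (9 / 8 : ℝ) + (M : ℝ) ^ 6 / ((d : ℝ) + 1) ^ 4) *
          Real.log (r + 2) ^ 3) :=
        mul_le_mul_of_nonneg_right hC1 (mul_nonneg hA (by positivity))
      have h10 : C * (((M : ℝ) ^ (9 / 8 : ℝ) + (M : ℝ) ^ 6 / ((d : ℝ) + 1) ^ 4) *
          Real.log (r + 2) ^ 3) = C * ((M : ℝ) ^ (9 / 8 : ℝ) + (M : ℝ) ^ 6 / ((d : ℝ) + 1) ^ 4) *
          Real.log (r + 2) ^ 3 := by ring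
      linarith

/-- the dimension in every degree (`dim_of_empty`, `main_up`) -/
theorem dim_up : ∃ C : ℝ, 1 ≤ C ∧ ∀ (n d M : ℕ) (μ : Fin n → ℕ), 1 ≤ M → (∀ i, μ i ≤ M) →
    General (fun P => max (vd d μ) 0 ≤ (Module.finrank ℂ (curves d μ P) : ℤ) ∧
      (Module.finrank ℂ (curves d μ P) : ℝ) ≤ max ((vd d μ : ℤ) : ℝ) 0 +
        C * ((M : ℝ) ^ (9 / 8 : ℝ) + (M : ℝ) ^ 6 / ((d : ℝ) + 1) ^ 4) *
          Real.log (((d : ℝ) + 1) / M + 2) ^ 3) := by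
  obtain ⟨C, hC, h⟩ := main_up
  refine ⟨C + 8, by linarith, fun n d M μ hM hμ => ?_⟩
  have hM1 : (1 : ℝ) ≤ M := by exact_mod_cast hM
  have hd : (0 : ℝ) < (d : ℝ) + 1 := by positivity
  have hA : 1 ≤ (M : ℝ) ^ (9 / 8 : ℝ) + (M : ℝ) ^ 6 / ((d : ℝ) + 1) ^ 4 := by
    have h1 : 1 ≤ (M : ℝ) ^ (9 / 8 : ℝ) := Real.one_le_rpow hM1 (by norm_num)
    have h2 : 0 ≤ (M : ℝ) ^ 6 / ((d : ℝ) + 1) ^ 4 := by positivity
    linarith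
  have hr : 0 < ((d : ℝ) + 1) / M := by positivity
  have hL : 1 / 2 ≤ Real.log (((d : ℝ) + 1) / M + 2) := by
    have h1 := Real.log_two_gt_d9
    have h2 : Real.log 2 ≤ Real.log (((d : ℝ) + 1) / M + 2) :=
      Real.log_le_log (by norm_num) (by linarith)
    linarith
  have hL3 : 1 ≤ 8 * Real.log (((d : ℝ) + 1) / M + 2) ^ 3 := by
    have := pow_le_pow_left₀ (by norm_num : (0 : ℝ) ≤ 1 / 2) hL 3
    linarith
  have hL0 : 0 ≤ Real.log (((d : ℝ) + 1) / M + 2) ^ 3 := by linarith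
  have hAL : 1 ≤ 8 * (((M : ℝ) ^ (9 / 8 : ℝ) + (M : ℝ) ^ 6 / ((d : ℝ) + 1) ^ 4) *
      Real.log (((d : ℝ) + 1) / M + 2) ^ 3) := by
    have h1 : 1 ≤ ((M : ℝ) ^ (9 / 8 : ℝ) + (M : ℝ) ^ 6 / ((d : ℝ) + 1) ^ 4) *
        (8 * Real.log (((d : ℝ) + 1) / M + 2) ^ 3) := one_le_mul_of_one_le_of_one_le hA hL3
    linarith
  have hW : 0 ≤ C * ((M : ℝ) ^ (9 / 8 : ℝ) + (M : ℝ) ^ 6 / ((d : ℝ) + 1) ^ 4) *
      Real.log (((d : ℝ) + 1) / M + 2) ^ 3 := by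
    rw [mul_assoc]
    exact mul_nonneg (by linarith) (by linarith)
  refine (dim_of_empty hM hW (fun n' μ' hμ' hv => h n' d M μ' hM hμ' ?_) μ hμ).mono ?_
  · rw [abs_of_nonpos (by linarith)]
    linarith
  · rintro P ⟨h4, h5⟩
    refine ⟨h4, h5.trans ?_⟩
    rw [mul_assoc (C + 8), add_mul, ← mul_assoc]
    linarith

end Pool.Agent.Lib.MP_6b2d39_agUp
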