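import Pool.Agent.Lib.MP_6b2d39_agUn.CorA
import Pool.Agent.Lib.MP_6b2d39_agUp.P2Main

set_option autoImplicit false

namespace Pool.Agent.Lib.MP_6b2d39_agUp

open Pool.Agent.Lib.MP_6b2d39_agUn Pool.Agent.Lib.MP_6b2d39_agCr

/-- THEOREM U+, one constant (the maximum of the three constants) -/
theorem all_mult_up : ∃ C : ℝ, ∀ (n M : ℕ) (μ : Fin n → ℕ), 1 ≤ M → (∀ i, μ i ≤ M) →
    (∀ (d : ℕ) (W : ℝ),
      W = C * ((M : ℝ) ^ (9 / 8 : ℝ) + (M : ℝ) ^ 6 / ((d : ℝ) + 1) ^ 4) *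
        Real.log (((d : ℝ) + 1) / M + 2) ^ 3 →
      General (fun P => max (vd d μ) 0 ≤ (Module.finrank ℂ (curves d μ P) : ℤ) ∧
        (Module.finrank ℂ (curves d μ P) : ℝ) ≤ max ((vd d μ : ℤ) : ℝ) 0 + W ∧
        (W ≤ |((vd d μ : ℤ) : ℝ)| →
          (Module.finrank ℂ (curves d μ P) : ℤ) = max (vd d μ) 0))) ∧
    (C * (M : ℝ) ^ (12 / 5 : ℝ) * Real.log (M + 2) ^ 2 ≤ ((∑ i, μ i ^ 2 : ℕ) : ℝ) →
      ∃ d0 : ℕ, ∀ d : ℕ, d ≠ d0 →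
        General (fun P => (Module.finrank ℂ (curves d μ P) : ℤ) = max (vd d μ) 0)) := by
  obtain ⟨C1, h11, h1⟩ := dim_up
  obtain ⟨C2, h21, h2⟩ := main_up
  obtain ⟨C3, h31, h3⟩ := cor_a
  obtain ⟨C, hC⟩ : ∃ C, C = max C1 (max C2 C3) := ⟨_, rfl⟩
  have e1 : C1 ≤ C := by rw [hC]; exact le_max_left _ _
  have e2 : C2 ≤ C := by rw [hC]; exact (le_max_left _ _).trans (le_max_right _ _)
  have e3 : C3 ≤ C := by rw [hC]; exact (le_max_right _ _).trans (le_max_right _ _)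
  refine ⟨C, fun n M μ hM hμ => ⟨fun d W hW => ?_, fun hs => h3 n M μ hM hμ (le_trans ?_ hs)⟩⟩
  · have hr : 0 ≤ ((d : ℝ) + 1) / M := by positivity
    have hl : 0 ≤ Real.log (((d : ℝ) + 1) / M + 2) := Real.log_nonneg (by linarith)
    have hA : 0 ≤ ((M : ℝ) ^ (9 / 8 : ℝ) + (M : ℝ) ^ 6 / ((d : ℝ) + 1) ^ 4) *
        Real.log (((d : ℝ) + 1) / M + 2) ^ 3 := by positivity
    have hW1 : C1 * ((M : ℝ) ^ (9 / 8 : ℝ) + (M : ℝ) ^ 6 / ((d : ℝ) + 1) ^ 4) *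
        Real.log (((d : ℝ) + 1) / M + 2) ^ 3 ≤ W := by
      rw [hW, mul_assoc, mul_assoc]
      exact mul_le_mul_of_nonneg_right e1 hA
    have hW2 : C2 * ((M : ℝ) ^ (9 / 8 : ℝ) + (M : ℝ) ^ 6 / ((d : ℝ) + 1) ^ 4) *
        Real.log (((d : ℝ) + 1) / M + 2) ^ 3 ≤ W := by
      rw [hW, mul_assoc, mul_assoc]
      exact mul_le_mul_of_nonneg_right e2 hA
    by_cases hv : W ≤ |((vd d μ : ℤ) : ℝ)|
    · refine ((h1 n d M μ hM hμ).and (h2 n d M μ hM hμ (hW2.trans hv))).mono ?_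
      rintro P ⟨⟨h4, h5⟩, h6⟩
      exact ⟨h4, h5.trans (by linarith), fun _ => h6⟩
    · refine (h1 n d M μ hM hμ).mono ?_
      rintro P ⟨h4, h5⟩
      exact ⟨h4, h5.trans (by linarith), fun h => absurd h hv⟩
  · have hl : 0 ≤ Real.log ((M : ℝ) + 2) := Real.log_nonneg (by
      have : (0 : ℝ) ≤ M := by positivity
      linarith)
    rw [mul_assoc, mul_assoc]
    exact mul_le_mul_of_nonneg_right e3 (by positivity)

end Pool.Agent.Lib.MP_6b2d39_agUp
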