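import Pool.Agent.Lib.MP_6b2d39_agUp.Base

set_option autoImplicit false

namespace Pool.Agent.Lib.MP_6b2d39_agUp

open Pool.Agent.Lib.MP_6b2d39_agUn

open Pool.Agent.Lib.MP_6b2d39_agArr

variable {ι : Type} [DecidableEq ι]

/-- U17. sum of the loads: `∑_(c<y) ld (y-1-μ) c = ∑_(c<y) (μ - c)` (reflect the range) -/
theorem sum_ld (μ y : ℕ) : ∑ c ∈ Finset.range y, ld ((y : ℤ) - 1 - μ) c =
    ∑ c ∈ Finset.range y, ((μ - c : ℕ) : ℤ) := by
  rw [← Finset.sum_range_reflect]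
  refine Finset.sum_congr rfl fun c hc => ?_
  have h := Finset.mem_range.mp hc
  unfold ld
  omega

end Pool.Agent.Lib.MP_6b2d39_agUp
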