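import Pool.Agent.Lib.MP_6b2d39_agUp.Prof
import Pool.Agent.Lib.MP_6b2d39_agUp.RwL
import Pool.Agent.Lib.MP_6b2d39_agUp.SumLd
import Pool.Agent.Lib.MP_6b2d39_agUp.OpsA

set_option autoImplicit false

namespace Pool.Agent.Lib.MP_6b2d39_agUp

open Pool.Agent.Lib.MP_6b2d39_agUn

open Pool.Agent.Lib.MP_6b2d39_agArr

variable {ι : Type} [DecidableEq ι]

/-- U30 (NEG end): induction on `y + #J`. `N (y-1) > 0`: `J` is not empty (otherwise `D` is decreasing
and positive), OpA with any point. `N (y-1) ≤ 0`: if `N (y-2) < N (y-1)` the slope there is
negative (`prof` with `V = 0`, `sl_mono`), all `N ≤ 0`, STD; otherwise OpC. -/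
theorem end_neg {P : Pa} {R : ℕ → ℤ} (hR : Rw P R) {m : ι → ℕ} {a : ℕ} :
    ∀ (k : ℕ) (J : Finset ι) (y : ℕ) (D : ℕ → ℤ) (K : List ℤ), y + J.card = k → y ≤ 3 * P.M →
      y ≤ a → (∀ c < y, D c = R c - lds K c) →
      ∑ c ∈ Finset.range y, nd m J D c ≤ -((y : ℤ) * a) →
      (1 ≤ y → -(a : ℤ) ≤ nd m J D (y - 1)) → Cert m J y D := by
  intro k
  induction k with
  | zero =>
    intro J y D K hk _ _ _ _ _
    have hy : y = 0 := by omega
    subst hy
    exact op_std fun c hc => absurd hc (Nat.not_lt_zero c)
  | succ k ih =>
    intro J y D K hk hyM hya hD hsum htop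
    rcases Nat.eq_zero_or_pos y with hy0 | hy0
    · subst hy0
      exact op_std fun c hc => absurd hc (Nat.not_lt_zero c)
    have htop1 := htop hy0
    -- the slopes
    have hprof : ∀ c, c + 1 < y → nd m J D c - nd m J D (c + 1) = sl R m J K c := by
      intro c hc
      have h1 : ∀ c < y, D c = R c - lds K c - (fun _ : ℕ => (0 : ℤ)) c := by
        intro c hc
        rw [hD c hc]
        ring
      have h2 := prof (m := m) (J := J) h1 hc
      rw [h2]
      ring
    rcases le_or_gt (nd m J D (y - 1)) 0 with hN | hN
    · -- the top demand is not positive
      rcases Nat.lt_or_ge y 2 with hy2 | hy2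
      · refine op_std fun c hc => ?_
        have : c = y - 1 := by omega
        rw [this]
        exact hN
      rcases lt_or_ge (nd m J D (y - 2)) (nd m J D (y - 1)) with hlt | hge
      · -- increasing profile
        have e0 : y - 2 + 1 = y - 1 := by omega
        have h0 := hprof (y - 2) (by omega)
        rw [e0] at h0
        have hneg : ∀ c, c + 1 < y → nd m J D c ≤ nd m J D (c + 1) := by
          intro c hc
          have h1 := hprof c hc
          have h2 := sl_mono hR m J K (b := c) (c := y - 2) (by omega) (by omega)
          linarith
        refine op_std fun c hc => ?_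
        have hall : ∀ r, ∀ c, c + r = y - 1 → nd m J D c ≤ 0 := by
          intro r
          induction r with
          | zero =>
            intro c hc
            have : c = y - 1 := by omega
            rw [this]
            exact hN
          | succ r ihr =>
            intro c hc
            exact (hneg c (by omega)).trans (ihr (c + 1) (by omega))
        exact hall (y - 1 - c) c (by omega)
      · -- remove the row
        obtain ⟨y', rfl⟩ : ∃ y', y = y' + 1 := ⟨y - 1, by omega⟩
        have e1 : y' + 1 - 1 = y' := by omega
        have e2 : y' + 1 - 2 = y' - 1 := by omega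
        rw [e1] at hN htop1 hge
        rw [e2] at hge
        refine op_c (ih J y' D K (by omega) (by omega) (by omega) (fun c hc => hD c (by omega))
          ?_ (fun _ => htop1.trans hge)) hN
        rw [Finset.sum_range_succ] at hsum
        push_cast at hsum
        linarith
    · -- the top demand is positive
      rcases J.eq_empty_or_nonempty with hJ | ⟨j, hj⟩
      · exfalso
        subst hJ
        have hpos : ∀ c, c + 1 < y → nd m ∅ D (c + 1) ≤ nd m ∅ D c := by
          intro c hc
          have h1 := hprof c hc
          have h2 := hR.r1 c (by omega)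
          have h3 : sl R m ∅ K c = R c - R (c + 1) + (nk K ((c : ℤ) + 1) : ℤ) := by
            unfold sl
            simp
          have h4 : (0 : ℤ) ≤ P.Q := Int.natCast_nonneg _
          have h5 : (0 : ℤ) ≤ (nk K ((c : ℤ) + 1) : ℤ) := Int.natCast_nonneg _
          linarith
        have hall : ∀ r, ∀ c, c + r = y - 1 → 0 < nd m ∅ D c := by
          intro r
          induction r with
          | zero =>
            intro c hc
            have : c = y - 1 := by omega
            rw [this]
            exact hN
          | succ r ihr =>
            intro c hc
            exact (ihr (c + 1) (by omega)).trans_le (hpos c (by omega))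
        have hs : 0 < ∑ c ∈ Finset.range y, nd m ∅ D c := by
          apply Finset.sum_pos
          · intro c hc
            rw [Finset.mem_range] at hc
            exact hall (y - 1 - c) c (by omega)
          · exact ⟨0, Finset.mem_range.2 hy0⟩
        have h6 : (0 : ℤ) ≤ (y : ℤ) * a := by positivity
        linarith
      · apply op_a hj
        have hnd : ∀ c, nd m (J.erase j) (fun c => D c - ld ((y : ℤ) - 1 - m j) c) c =
            nd m J D c + ((m j - c : ℕ) : ℤ) - ld ((y : ℤ) - 1 - m j) c := by
          intro c
          unfold nd
          rw [← Finset.add_sum_erase J (fun i => ((m i - c : ℕ) : ℤ)) hj]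
          ring
        have hcard := Finset.card_erase_of_mem hj
        have hJpos : 0 < J.card := Finset.card_pos.2 ⟨j, hj⟩
        refine ih (J.erase j) y _ (((y : ℤ) - 1 - m j) :: K) (by omega) hyM hya ?_ ?_ ?_
        · intro c hc
          rw [hD c hc]
          unfold lds
          rw [List.map_cons, List.sum_cons]
          ring
        · simp only [hnd]
          rw [Finset.sum_sub_distrib, Finset.sum_add_distrib, sum_ld]
          linarith
        · intro _
          rw [hnd]
          have e : ld ((y : ℤ) - 1 - m j) (y - 1) = m j := by
            unfold ld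
            rw [max_eq_left (by omega)]
            omega
          rw [e]
          omega

end Pool.Agent.Lib.MP_6b2d39_agUp
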