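import Pool.Agent.Lib.MP_6b2d39_agUp.Phase
import Pool.Agent.Lib.MP_6b2d39_agUp.EndNeg
import Pool.Agent.Lib.MP_6b2d39_agUp.VTop

set_option autoImplicit false

namespace Pool.Agent.Lib.MP_6b2d39_agUp

open Pool.Agent.Lib.MP_6b2d39_agUn

open Pool.Agent.Lib.MP_6b2d39_agArr

variable {ι : Type} [DecidableEq ι]

omit [DecidableEq ι] in
private theorem start_neg {P : Pa} {R : ℕ → ℤ} (hR : Rw P R) {m : ι → ℕ} {J : Finset ι}
    (hm1 : ∀ i ∈ J, m i ≤ P.M) (hm2 : P.y0 < 3 * P.M → ∀ i ∈ J, P.M < 2 * m i) {v0 : ℤ}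
    (hv0 : ∑ c ∈ Finset.range P.T, nd m J R c = v0) :
    St P R m v0 J P.T R [] (fun _ => 0) := by
  have hM := P.hM
  have hT := P.hT
  refine ⟨by omega, le_rfl, Or.inr (by omega), hm1, hm2, ?_, ?_, ?_, ?_, ?_, ?_, hv0, ?_, ?_, ?_⟩
  · intro c _
    simp [lds]
  · intro t ht
    simp at ht
  · intro c _
    exact le_rfl
  · intro c _
    exact le_rfl
  · intro c _
    exact le_max_right _ _
  · unfold nd
    have h0 : ∑ i ∈ J, ((m i - (P.T - 1) : ℕ) : ℤ) = 0 := by
      refine Finset.sum_eq_zero fun i hi => ?_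
      have := hm1 i hi
      have h1 : m i - (P.T - 1) = 0 := by omega
      rw [h1]
      rfl
    rw [h0, sub_zero]
    exact hR.r3
  · intro i hi s _ hs2 hs3
    exfalso
    have := hm1 i hi
    omega
  · intro _ c _
    simp [nk]
  · intro _ hy
    exfalso
    omega

/-- U33 (CLASS THEOREM, v < 0): `phase` with `Z = ∅`, start `y = T`, `K = []`, `V = 0`; at the end
replace `D` by `D + V` (`cert_mono`), `V ≤ V (y-1) ≤ Vs + X y0` (`v_top`), `end_neg` with `a = y0`;
`J = ∅`: `D` is decreasing and positive, so `v0 > 0`. -/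
theorem class_neg {P : Pa} {R : ℕ → ℤ} (hR : Rw P R) {m : ι → ℕ} {J : Finset ι}
    (hm1 : ∀ i ∈ J, m i ≤ P.M) (hm2 : P.y0 < 3 * P.M → ∀ i ∈ J, P.M < 2 * m i) {v0 : ℤ}
    (hv0 : ∑ c ∈ Finset.range P.T, nd m J R c = v0)
    (hv : -(3000 * P.w * v0) ≤ (P.y0 : ℤ) ^ 3)
    (hv1 : (P.y0 : ℤ) ^ 2 + P.y0 * (P.Vs + P.X * P.y0) ≤ -v0) : Cert m J P.T R := by
  have hv0' : v0 ≤ 0 := by
    have h1 : (0 : ℤ) ≤ (P.y0 : ℤ) ^ 2 + P.y0 * (P.Vs + P.X * P.y0) := by positivity
    linarith
  rw [← Finset.union_empty J]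
  refine phase hR hv (Finset.disjoint_empty_right J) ?_ J (Finset.Subset.refl J) P.T R []
    (fun _ => 0) (start_neg hR hm1 hm2 hv0)
  intro J' hJ' y D K V hSt hend
  rw [Finset.union_empty]
  have hy := hSt.hy
  have hyT := hSt.hyT
  rcases hend with hE | ⟨hy3, hya⟩
  · -- no pending point: all demands are positive
    exfalso
    subst hE
    have hnd : ∀ c, nd m ∅ D c = D c := fun c => by simp [nd]
    have hstep : ∀ c, c + 1 < y → D (c + 1) ≤ D c := by
      intro c hc
      have hQ := P.hQ
      have h1 := hR.r2 c (by omega)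
      have h2 := hSt.i3b c hc
      have h3 : lds K c ≤ lds K (c + 1) := by
        unfold lds
        refine List.sum_le_sum fun t _ => ?_
        unfold ld
        refine max_le_max ?_ le_rfl
        push_cast
        linarith
      have hQ' : (8 : ℤ) ≤ P.Q := by exact_mod_cast hQ
      rw [hSt.i1 c (by omega), hSt.i1 (c + 1) hc]
      linarith
    have htop : 1 ≤ D (y - 1) := by
      have h := hSt.i4
      rwa [hnd] at h
    have hpos : ∀ k, ∀ c, c + k + 1 = y → 1 ≤ D c := by
      intro k
      induction k with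
      | zero =>
        intro c hc
        have h1 : c = y - 1 := by omega
        rw [h1]
        exact htop
      | succ k ih =>
        intro c hc
        exact (ih (c + 1) (by omega)).trans (hstep c (by omega))
    have h5 := hSt.i5
    have h6 : ∑ c ∈ Finset.range y, (1 : ℤ) ≤ ∑ c ∈ Finset.range y, nd m ∅ D c := by
      refine Finset.sum_le_sum fun c hc => ?_
      rw [Finset.mem_range] at hc
      rw [hnd]
      exact hpos (y - 1 - c) c (by omega)
    rw [h5, Finset.sum_const, Finset.card_range, nsmul_eq_mul, mul_one] at h6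
    have h7 : (1 : ℤ) ≤ y := by exact_mod_cast hy
    linarith
  · have hyaz : (y : ℤ) ≤ P.y0 := by exact_mod_cast hya
    have hy0 : (0 : ℤ) ≤ y := by positivity
    have hVV : ∀ c < y, V c ≤ P.Vs + P.X * P.y0 := v_end hR hSt hya
    refine cert_mono (Finset.Subset.refl J') (D' := fun c => D c + V c) ?_ ?_
    · intro c hc
      have := hSt.i3a c hc
      try dsimp only
      linarith
    · refine end_neg hR (a := P.y0) (y + J'.card) J' y _ K rfl hy3 hya ?_ ?_ ?_
      · intro c hc
        rw [hSt.i1 c hc]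
        ring
      · have h1 : ∑ c ∈ Finset.range y, nd m J' (fun c => D c + V c) c =
            ∑ c ∈ Finset.range y, nd m J' D c + ∑ c ∈ Finset.range y, V c := by
          rw [← Finset.sum_add_distrib]
          refine Finset.sum_congr rfl fun c _ => ?_
          unfold nd
          ring
        have h2 : ∑ c ∈ Finset.range y, V c ≤ y * (P.Vs + P.X * P.y0) := by
          have := Finset.sum_le_card_nsmul (Finset.range y) V (P.Vs + P.X * P.y0)
            fun c hc => hVV c (Finset.mem_range.1 hc)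
          rwa [Finset.card_range, nsmul_eq_mul] at this
        have h3 : (y : ℤ) * (P.Vs + P.X * P.y0) ≤ P.y0 * (P.Vs + P.X * P.y0) :=
          mul_le_mul_of_nonneg_right hyaz (by positivity)
        have h4 : (y : ℤ) * P.y0 ≤ P.y0 * P.y0 := mul_le_mul_of_nonneg_right hyaz (by positivity)
        rw [h1, hSt.i5]
        nlinarith
      · intro _
        have h1 := hSt.i4
        have h2 := hSt.i3a (y - 1) (by omega)
        have h3 : nd m J' (fun c => D c + V c) (y - 1) = nd m J' D (y - 1) + V (y - 1) := by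
          unfold nd
          ring
        rw [h3]
        have h4 : (0 : ℤ) ≤ P.y0 := by positivity
        linarith

end Pool.Agent.Lib.MP_6b2d39_agUp
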