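import Pool.Agent.Lib.MP_6b2d39_agUp.Prof
import Pool.Agent.Lib.MP_6b2d39_agUp.RwL
import Pool.Agent.Lib.MP_6b2d39_agUp.SumLd
import Pool.Agent.Lib.MP_6b2d39_agUp.OpsA
import Pool.Agent.Lib.MP_6b2d39_agUp.SimpleEnd

set_option autoImplicit false

namespace Pool.Agent.Lib.MP_6b2d39_agUp

open Pool.Agent.Lib.MP_6b2d39_agUn

open Pool.Agent.Lib.MP_6b2d39_agArr

variable {ι : Type} [DecidableEq ι]

private theorem end_pos_aux {P : Pa} {R : ℕ → ℤ} (hR : Rw P R) {m : ι → ℕ} {a : ℕ} {Vm : ℤ}
    (hVm : 0 ≤ Vm) (V : ℕ → ℤ) :
    ∀ (n : ℕ) (J Z : Finset ι) (y : ℕ) (D : ℕ → ℤ) (K : List ℤ), y + J.card = n →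
      Disjoint J Z → (∀ i ∈ Z, m i = 1) → 1 ≤ y → y ≤ 3 * P.M → y ≤ a →
      (∀ c < y, D c = R c - lds K c - V c) → (∀ c < y, 0 ≤ V c ∧ V c ≤ Vm) →
      (∀ c, c + 1 < y → V c ≤ V (c + 1)) → ∑ c ∈ Finset.range y, nd m J D c = Z.card →
      (a : ℤ) ^ 2 + a * Vm + y * a ≤ Z.card → 0 ≤ nd m J D (y - 1) → Cert m (J ∪ Z) y D := by
  intro n
  induction n with
  | zero => intro J Z y D K hn _ _ hy; omega
  | succ n ih =>
    intro J Z y D K hn hJZ hZ hy hy3 hya hD hV hVmo hs hZc hN
    obtain ⟨x, rfl⟩ : ∃ x, y = x + 1 := ⟨y - 1, by omega⟩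
    simp only [Nat.add_sub_cancel] at hN
    rcases Nat.eq_zero_or_pos x with hx | hx
    · -- one row
      subst hx
      refine op_std fun c hc => ?_
      have hc0 : c = 0 := by omega
      subst hc0
      simp only [zero_add, Finset.sum_range_one] at hs
      have h1 : ∑ i ∈ J ∪ Z, ((m i - 0 : ℕ) : ℤ) =
          ∑ i ∈ J, ((m i - 0 : ℕ) : ℤ) + Z.card := by
        rw [Finset.sum_union hJZ]
        congr 1
        rw [Finset.sum_congr rfl fun i hi => by rw [hZ i hi]]
        simp
      unfold nd at hs ⊢
      rw [h1]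
      linarith
    rcases J.eq_empty_or_nonempty with hJ | hJ
    · -- only simple points
      subst hJ
      rw [Finset.empty_union]
      have hnd : ∀ c, nd m (∅ : Finset ι) D c = D c := by
        intro c; simp [nd]
      refine simple_end (x + 1 + Z.card) Z (x + 1) D rfl hZ ?_ ?_ ?_
      · intro c hc
        have h1 := prof (m := m) (J := ∅) hD hc
        rw [hnd, hnd] at h1
        have h2 := hR.r1 c (by omega)
        have h3 := hVmo c hc
        have h4 : sl R m (∅ : Finset ι) K c = P.Q + (nk K ((c : ℤ) + 1) : ℤ) := by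
          unfold sl
          rw [h2]
          simp
        rw [h4] at h1
        have h5 : (0 : ℤ) ≤ P.Q := by positivity
        have h6 : (0 : ℤ) ≤ (nk K ((c : ℤ) + 1) : ℤ) := by positivity
        linarith
      · intro _
        rw [hnd] at hN
        simpa using hN
      · rw [← hs]
        exact Finset.sum_congr rfl fun c _ => (hnd c).symm
    by_cases hex : ∃ i ∈ J, min (x : ℤ) (m i) ≤ nd m J D x
    · -- OpA
      obtain ⟨i, hi, hle⟩ := hex
      have hiZ : i ∉ Z := Finset.disjoint_left.1 hJZ hi
      refine op_a (i := i) (Finset.mem_union_left _ hi) ?_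
      have he : (J ∪ Z).erase i = J.erase i ∪ Z := by
        rw [Finset.erase_union_distrib, Finset.erase_eq_of_notMem hiZ]
      rw [he]
      have hsum : ∀ c, ∑ k ∈ J, ((m k - c : ℕ) : ℤ) =
          ((m i - c : ℕ) : ℤ) + ∑ k ∈ J.erase i, ((m k - c : ℕ) : ℤ) := fun c =>
        (Finset.add_sum_erase J (fun k => ((m k - c : ℕ) : ℤ)) hi).symm
      have hnd : ∀ c, nd m (J.erase i) (fun c => D c - ld (((x + 1 : ℕ) : ℤ) - 1 - m i) c) c =
          nd m J D c + ((m i - c : ℕ) : ℤ) - ld (((x + 1 : ℕ) : ℤ) - 1 - m i) c := by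
        intro c
        unfold nd
        rw [hsum c]
        ring
      refine ih (J.erase i) Z (x + 1) _ ((((x + 1 : ℕ) : ℤ) - 1 - m i) :: K) ?_ ?_ hZ hy hy3 hya
        ?_ hV hVmo ?_ hZc ?_
      · rw [Finset.card_erase_of_mem hi]
        have := Finset.card_pos.2 ⟨i, hi⟩
        omega
      · exact Finset.disjoint_of_subset_left (Finset.erase_subset _ _) hJZ
      · intro c hc
        rw [hD c hc]
        simp only [lds, List.map_cons, List.sum_cons]
        ring
      · rw [Finset.sum_congr rfl fun c _ => hnd c, Finset.sum_sub_distrib, Finset.sum_add_distrib,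
          sum_ld, hs]
        ring
      · simp only [Nat.add_sub_cancel]
        rw [hnd x]
        have h1 : ld (((x + 1 : ℕ) : ℤ) - 1 - m i) x = m i := by
          unfold ld
          rw [max_eq_left]
          · push_cast; ring
          · push_cast
            have : (0 : ℤ) ≤ m i := by positivity
            linarith
        rw [h1]
        rcases le_total (m i) x with h2 | h2
        · have h3 : m i - x = 0 := by omega
          rw [h3]
          have h4 : (m i : ℤ) ≤ x := by exact_mod_cast h2
          rw [min_eq_right h4] at hle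
          push_cast
          linarith
        · have h4 : (x : ℤ) ≤ m i := by exact_mod_cast h2
          rw [min_eq_left h4] at hle
          rw [Nat.cast_sub h2]
          linarith
    · -- the top row is served by simple points
      push Not at hex
      obtain ⟨i0, hi0⟩ := hJ
      have hlt := hex i0 hi0
      have hνx : nd m J D x < x := lt_of_lt_of_le hlt (min_le_left _ _)
      obtain ⟨ν, hν⟩ : ∃ ν : ℕ, nd m J D x = ν := ⟨(nd m J D x).toNat, by
        rw [Int.toNat_of_nonneg hN]⟩
      have hνx' : ν < x := by
        rw [hν] at hνx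
        exact_mod_cast hνx
      have ha1 : (x : ℤ) + 1 ≤ a := by exact_mod_cast hya
      have hνa : (ν : ℤ) + 2 ≤ a := by
        have : (ν : ℤ) + 1 ≤ x := by exact_mod_cast hνx'
        linarith
      have hx1 : (1 : ℤ) ≤ x := by exact_mod_cast hx
      have haV : 0 ≤ (a : ℤ) * Vm := mul_nonneg (by positivity) hVm
      have hxa : 0 ≤ ((x : ℤ)) * a := by positivity
      have hZc' : (a : ℤ) ^ 2 + a * Vm + (x * a + a) ≤ Z.card := by
        have h := hZc
        push_cast at h
        linarith
      have ha2 : 0 ≤ (a : ℤ) ^ 2 := by positivity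
      have hνZ : ν ≤ Z.card := by
        have : (ν : ℤ) ≤ Z.card := by linarith
        exact_mod_cast this
      obtain ⟨Z', hZ'Z, hZ'c, himp⟩ := use_simple (m := m) (J := J) (y := x) ν Z D hJZ hZ hνZ
      apply himp
      have hJZ' : Disjoint J Z' := Finset.disjoint_of_subset_right hZ'Z hJZ
      have hZ1' : ∀ i ∈ Z', m i = 1 := fun i hi => hZ i (hZ'Z hi)
      have hZ'c' : (Z'.card : ℤ) + ν = Z.card := by exact_mod_cast hZ'c
      set D1 : ℕ → ℤ := fun c => if c = x then D c - ν else D c with hD1
      have hD1c : ∀ c, c < x → D1 c = D c := by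
        intro c hc
        simp only [hD1]
        rw [if_neg (by omega)]
      have hnd1 : ∀ c, c < x → nd m J D1 c = nd m J D c := by
        intro c hc
        unfold nd
        rw [hD1c c hc]
      refine op_c ?_ ?_
      · -- the rows below
        refine ih J Z' x D1 K ?_ hJZ' hZ1' hx (by omega) (by omega) ?_ ?_ ?_ ?_ ?_ ?_
        · omega
        · intro c hc
          rw [hD1c c hc]
          exact hD c (by omega)
        · exact fun c hc => hV c (by omega)
        · exact fun c hc => hVmo c (by omega)
        · rw [Finset.sum_congr rfl fun c hc => hnd1 c (Finset.mem_range.1 hc)]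
          rw [Finset.sum_range_succ, hν] at hs
          linarith
        · linarith
        · -- the next row has a nonnegative demand
          rw [hnd1 (x - 1) (by omega)]
          by_contra hneg
          push Not at hneg
          have hstep : ∀ c, c < x → nd m J D c + V c ≤ nd m J D (c + 1) + V (c + 1) := by
            have hp := prof (m := m) (J := J) hD (c := x - 1) (by omega)
            have hxx : x - 1 + 1 = x := by omega
            rw [hxx] at hp
            have hv := hVmo (x - 1) (by omega)
            rw [hxx] at hv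
            have hsl : sl R m J K (x - 1) < 0 := by linarith
            intro c hc
            have hpc := prof (m := m) (J := J) hD (c := c) (by omega)
            have hmo := sl_mono hR m J K (b := c) (c := x - 1) (by omega) (by omega)
            linarith
          have hle : ∀ k, k < x → nd m J D (x - 1 - k) + V (x - 1 - k) ≤
              nd m J D (x - 1) + V (x - 1) := by
            intro k
            induction k with
            | zero => intro _; simp
            | succ k ihk =>
              intro hk
              have h1 := ihk (by omega)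
              have h2 := hstep (x - 1 - (k + 1)) (by omega)
              have h3 : x - 1 - (k + 1) + 1 = x - 1 - k := by omega
              rw [h3] at h2
              linarith
          have hVx := hV (x - 1) (by omega)
          have hbd : ∀ c ∈ Finset.range x, nd m J D c ≤ Vm := by
            intro c hc
            rw [Finset.mem_range] at hc
            have h1 := hle (x - 1 - c) (by omega)
            have h2 : x - 1 - (x - 1 - c) = c := by omega
            rw [h2] at h1
            have h3 := hV c (by omega)
            linarith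
          have hsum := Finset.sum_le_sum hbd
          rw [Finset.sum_const, Finset.card_range, nsmul_eq_mul] at hsum
          rw [Finset.sum_range_succ, hν] at hs
          have hxV : (x : ℤ) * Vm ≤ a * Vm := mul_le_mul_of_nonneg_right (by linarith) hVm
          linarith
      · -- the top row
        have h1 : ∑ i ∈ Z', ((m i - x : ℕ) : ℤ) = 0 := by
          refine Finset.sum_eq_zero fun i hi => ?_
          rw [hZ1' i hi]
          have : 1 - x = 0 := by omega
          rw [this]
          simp
        have h2 : nd m (J ∪ Z') D1 x = nd m J D x - ν := by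
          unfold nd
          rw [Finset.sum_union hJZ', h1]
          simp only [hD1, if_true]
          ring
        rw [h2, hν]
        simp

/-- U32 (POS end): induction on `y + #J + #Z`; `N` is computed without the simple points `Z`.
`y = 1`: STD. `J` empty: `simple_end`. Some `i ∈ J` with `min (y-1) (m i) ≤ N (y-1)`: OpA with `i`.
Otherwise `ν = N (y-1) < y ≤ a`: `use_simple` takes `ν` points of `Z` at once for the row `y - 1`,
then OpC; `N (y-2) ≥ 0` because otherwise `sl (y-2) < 0`, all `N c ≤ Vm` for `c ≤ y - 2` and the sum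
(`= #Z - ν`) is `≤ a Vm`. Induction with the bound `a^2 + a Vm + y a ≤ #Z`, on `y + #J`. -/
theorem end_pos {P : Pa} {R : ℕ → ℤ} (hR : Rw P R) {m : ι → ℕ} {a : ℕ} {Vm : ℤ} (hVm : 0 ≤ Vm)
    (J Z : Finset ι) (y : ℕ) (D : ℕ → ℤ) (K : List ℤ) (V : ℕ → ℤ)
    (hJZ : Disjoint J Z) (hZ : ∀ i ∈ Z, m i = 1) (hy : 1 ≤ y) (hy3 : y ≤ 3 * P.M) (hya : y ≤ a)
    (hD : ∀ c < y, D c = R c - lds K c - V c) (hV : ∀ c < y, 0 ≤ V c ∧ V c ≤ Vm)
    (hVmo : ∀ c, c + 1 < y → V c ≤ V (c + 1))
    (hs : ∑ c ∈ Finset.range y, nd m J D c = Z.card)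
    (hZc : 2 * (a : ℤ) ^ 2 + a * Vm ≤ Z.card)
    (hN : 0 ≤ nd m J D (y - 1)) : Cert m (J ∪ Z) y D := by
  refine end_pos_aux hR hVm V (y + J.card) J Z y D K rfl hJZ hZ hy hy3 hya hD hV hVmo hs ?_ hN
  have h1 : (y : ℤ) ≤ a := by exact_mod_cast hya
  have h2 : (y : ℤ) * a ≤ (a : ℤ) * a := mul_le_mul_of_nonneg_right h1 (by positivity)
  nlinarith

end Pool.Agent.Lib.MP_6b2d39_agUp
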