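import Pool.Agent.Lib.MP_6b2d39_agUp.LemS
import Pool.Agent.Lib.MP_6b2d39_agUp.VTop
import Pool.Agent.Lib.MP_6b2d39_agUn.SumK
import Pool.Agent.Lib.MP_6b2d39_agUn.Kinks

set_option autoImplicit false

namespace Pool.Agent.Lib.MP_6b2d39_agUp

open Pool.Agent.Lib.MP_6b2d39_agUn

open Pool.Agent.Lib.MP_6b2d39_agArr

variable {ι : Type} [DecidableEq ι]

private theorem lk_X (P : Pa) : 16 ≤ P.X := P.hX16

/-- U14 (LEMMA K). Suppose `sl L < 40 X`. Then `m j > L` (`lem_s` and `hzX`), so `i6` (with `j`) gives a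
kink in every window `[s, s + w)` with `L < 2 s`, `s + w ≤ L + 1` (`y - 1 - m j ≤ y - 2 - L < s`,
`s ≤ M`, `s ≥ w`), so `kinks_count`: at least `L / (4 w)` kinks in `(L/2, L]`; `sumK` with
`Γ = 40 X`, `Vm = V (y - 1) ≤ Vs + X y` (`v_top`); `L ≥ y / 2`; contradiction with `hv`, `hy1`, `hy2`. -/
theorem lem_k {P : Pa} {R : ℕ → ℤ} (hR : Rw P R) {m : ι → ℕ} {v0 : ℤ} {J : Finset ι} {y : ℕ}
    {D : ℕ → ℤ} {K : List ℤ} {V : ℕ → ℤ} (h : St P R m v0 J y D K V)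
    (hlt : P.y0 < 3 * P.M) (hv : -(3000 * P.w * v0) ≤ (P.y0 : ℤ) ^ 3) (hy0 : P.y0 ≤ y)
    (hy : y ≤ 3 * P.M) {j : ι} (hj : j ∈ J) (hmax : ∀ i ∈ J, m i ≤ m j) {L : ℕ} (hL : L + 2 ≤ y)
    (hL2 : 2 * y ≤ 3 * L + 3)
    (hN : ∀ b, L < b → b < y → nd m J D b ≤ min (b : ℤ) (m j)) :
    (40 * P.X : ℤ) ≤ sl R m J K L := by
  classical
  by_contra hcon
  push Not at hcon
  have hX := lk_X P
  have hM := P.hM
  have hw : 2 ≤ P.w := by rw [P.hw]; exact Nat.le_add_left 2 _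
  have hy1 := P.hy1
  have hwX : 32 ≤ P.w * P.X := by nlinarith
  have hyb : 120000 * (P.w * P.X) ≤ y := by
    have : 120000 * P.w * P.X = 120000 * (P.w * P.X) := by ring
    omega
  have hwwX : P.w * 16 ≤ P.w * P.X := Nat.mul_le_mul_left _ hX
  -- `m j > L`
  have hmj : L < m j := by
    by_contra hle
    push Not at hle
    have h1 := lem_s hR h hy (b := L) (by omega) (fun i hi => (hmax i hi).trans hle) (by
      have h2 := hN (L + 1) (by omega) (by omega)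
      have h3 := h.hm1 j hj
      have h4 := h2.trans (min_le_right _ _)
      omega)
    have h2 : (P.M : ℤ) * sl R m J K L ≤ P.M * (40 * P.X - 1) :=
      mul_le_mul_of_nonneg_left (by omega) (by positivity)
    have h3 : (80 * P.M * P.X : ℤ) ≤ P.z := by exact_mod_cast P.hzX
    have h4 : (1 : ℤ) ≤ P.M := by exact_mod_cast hM
    nlinarith
  have hmM := h.hm1 j hj
  -- kinks
  have hk := kinks_count (K := K) (w := P.w) (L := L) (by omega) (by omega) (fun s hs1 hs2 => by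
    refine h.i6 j hj s ?_ ?_ ?_
    · omega
    · omega
    · omega)
  set k : ℤ := ((K.countP fun t => (L : ℤ) < 2 * t ∧ t ≤ L : ℕ) : ℤ) with hkdef
  have hcount : ∀ s : ℕ, (nk K ((s : ℤ) + 1) : ℕ) = K.countP fun t => t ≤ (s : ℤ) := by
    intro s
    unfold nk
    apply List.countP_congr
    intro t _
    simp only [decide_eq_true_eq]
    omega
  have hVy0 := h.i3a (y - 1) (by omega)
  have hsum := sumK (Γ := 40 * P.X) (k := k) (Vm := V (y - 1)) (N := nd m J D) (V := V)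
    (g := sl R m J K) (y := y) (L := L) (by omega) (by positivity) (by positivity)
    (fun b hb => prof h.i1 (by omega))
    (fun b hb => (sl_mono hR m J K hb (by omega)).trans hcon.le)
    (fun b hb => by
      have h1 := sl_gap hR m J K (b := b) (c := L) (by omega) (by omega)
      have h2 := countP_add_le K (b := (b : ℤ)) (L := (L : ℤ)) (by exact_mod_cast hb) (by omega)
      have h3 := hcount b
      have h4 := hcount L
      have h5 : (nk K ((b : ℤ) + 1) : ℤ) + k ≤ nk K ((L : ℤ) + 1) := by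
        rw [h3, h4, hkdef]
        exact_mod_cast h2
      linarith)
    (fun b hb hb' => by
      have h1 := (hN b hb hb').trans (min_le_left _ _)
      have h2 : (b : ℤ) ≤ y := by exact_mod_cast hb'.le
      exact h1.trans h2)
    (fun b hb => h.i3a b (by omega)) (v_mono h.i3b (by omega) (by omega)) hVy0
  rw [h.i5] at hsum
  have hvt := v_top hR h hlt
  -- numbers
  have hV2 : 10000 * P.w * P.Vs ≤ P.y0 ^ 2 := P.hy2
  have hy0' : P.y0 ^ 2 ≤ y ^ 2 := Nat.pow_le_pow_left hy0 2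
  have hy0'' : P.y0 ^ 3 ≤ y ^ 3 := Nat.pow_le_pow_left hy0 3
  have a1 : 120000 * ((P.w : ℤ) * P.X) ≤ y := by exact_mod_cast hyb
  have a2 : 10000 * (P.w : ℤ) * P.Vs ≤ (y : ℤ) ^ 2 := by exact_mod_cast hV2.trans hy0'
  have a3 : (P.y0 : ℤ) ^ 3 ≤ (y : ℤ) ^ 3 := by exact_mod_cast hy0''
  have a4 : (16 : ℤ) ≤ P.X := by exact_mod_cast hX
  have a5 : (2 : ℤ) ≤ P.w := by exact_mod_cast hw
  have a6 : (y : ℤ) ≤ 2 * L := by omega
  have hy0n : (0 : ℤ) ≤ y := by positivity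
  have hL0n : (0 : ℤ) ≤ L := by positivity
  have b1 : 120000 * ((P.w : ℤ) * P.X * (y : ℤ) ^ 2) ≤ (y : ℤ) ^ 3 := by
    have := mul_le_mul_of_nonneg_right a1 (by positivity : (0 : ℤ) ≤ (y : ℤ) ^ 2)
    calc 120000 * ((P.w : ℤ) * P.X * (y : ℤ) ^ 2) = 120000 * ((P.w : ℤ) * P.X) * (y : ℤ) ^ 2 := by
          ring
      _ ≤ (y : ℤ) * (y : ℤ) ^ 2 := this
      _ = (y : ℤ) ^ 3 := by ring
  have b2 : 10000 * ((P.w : ℤ) * P.Vs * y) ≤ (y : ℤ) ^ 3 := by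
    have := mul_le_mul_of_nonneg_right a2 hy0n
    calc 10000 * ((P.w : ℤ) * P.Vs * y) = 10000 * (P.w : ℤ) * P.Vs * y := by ring
      _ ≤ (y : ℤ) ^ 2 * y := this
      _ = (y : ℤ) ^ 3 := by ring
  have b3 : (y : ℤ) ^ 3 ≤ 8 * (L : ℤ) ^ 3 := by
    have := pow_le_pow_left₀ hy0n a6 3
    calc (y : ℤ) ^ 3 ≤ (2 * (L : ℤ)) ^ 3 := this
      _ = 8 * (L : ℤ) ^ 3 := by ring
  have b4 : (L : ℤ) ^ 3 ≤ 4 * P.w * k * (L : ℤ) ^ 2 := by
    have := mul_le_mul_of_nonneg_right hk (by positivity : (0 : ℤ) ≤ (L : ℤ) ^ 2)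
    calc (L : ℤ) ^ 3 = (L : ℤ) * (L : ℤ) ^ 2 := by ring
      _ ≤ 4 * P.w * k * (L : ℤ) ^ 2 := this
  have b5 : 16 * ((P.w : ℤ) * (y : ℤ) ^ 2) ≤ (P.w : ℤ) * P.X * (y : ℤ) ^ 2 := by
    have := mul_le_mul_of_nonneg_right a4 (by positivity : (0 : ℤ) ≤ (P.w : ℤ) * (y : ℤ) ^ 2)
    calc 16 * ((P.w : ℤ) * (y : ℤ) ^ 2) ≤ (P.X : ℤ) * ((P.w : ℤ) * (y : ℤ) ^ 2) := this
      _ = (P.w : ℤ) * P.X * (y : ℤ) ^ 2 := by ring
  have b6 : 8 * v0 ≤ 8 * (y : ℤ) ^ 2 + 8 * y * (P.Vs + P.X * y) + 8 * (40 * P.X) * (y : ℤ) ^ 2 -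
      k * (L : ℤ) ^ 2 := by
    have := mul_le_mul_of_nonneg_left hvt (by positivity : (0 : ℤ) ≤ 8 * (y : ℤ))
    linarith
  have b7 : 4 * (P.w : ℤ) * (8 * v0) ≤ 4 * P.w * (8 * (y : ℤ) ^ 2 + 8 * y * (P.Vs + P.X * y) +
      8 * (40 * P.X) * (y : ℤ) ^ 2 - k * (L : ℤ) ^ 2) :=
    mul_le_mul_of_nonneg_left b6 (by positivity)
  have b8 : 4 * (P.w : ℤ) * (8 * (y : ℤ) ^ 2 + 8 * y * (P.Vs + P.X * y) +
      8 * (40 * P.X) * (y : ℤ) ^ 2 - k * (L : ℤ) ^ 2) = 32 * ((P.w : ℤ) * (y : ℤ) ^ 2) +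
      32 * ((P.w : ℤ) * P.Vs * y) + 1312 * ((P.w : ℤ) * P.X * (y : ℤ) ^ 2) -
      4 * P.w * k * (L : ℤ) ^ 2 := by ring
  have b9 : 4 * (P.w : ℤ) * (8 * v0) = 32 * ((P.w : ℤ) * v0) := by ring
  have b10 : -(3000 * ((P.w : ℤ) * v0)) ≤ (y : ℤ) ^ 3 := by
    have : 3000 * (P.w : ℤ) * v0 = 3000 * ((P.w : ℤ) * v0) := by ring
    linarith
  have b11 : (0 : ℤ) < (y : ℤ) ^ 3 := by
    have : (0 : ℤ) < y := by omega
    positivity
  rw [b8, b9] at b7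
  linarith

end Pool.Agent.Lib.MP_6b2d39_agUp
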