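import Mathlib

/-!
THEOREM U+: the dyadic class of multiplicities which is used last, with a stopping scale `Y`.
-/

set_option autoImplicit false

namespace Pool.Agent.Lib.MP_6b2d39_agUp

/-- There is a dyadic class `μ / 2 < m i ≤ μ` of large mass (or the class of all `m i ≤ μ`, with
`3 μ ≤ Y`) such that the mass of the points with `m i > μ` is bounded. -/
theorem class_exY {ι : Type} [DecidableEq ι] (m : ι → ℕ) (f : ι → ℤ) (hf : ∀ i, 0 ≤ f i)
    (hf0 : ∀ i, m i = 0 → f i = 0) {z W' : ℤ} (hz : 0 ≤ z) (hW : 0 ≤ W') (hpos : 0 < z + W')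
    (Y k : ℕ) : ∀ (M : ℕ) (J : Finset ι), (∀ i ∈ J, m i ≤ M) → 1 ≤ M → 3 * M ≤ 2 ^ k * Y →
      8 * (M : ℤ) * z + W' * ((k : ℤ) + 1) ≤ ∑ i ∈ J, f i →
      ∃ μ : ℕ, 1 ≤ μ ∧ μ ≤ M ∧
        ((3 * μ ≤ Y ∧ 4 * (μ : ℤ) * z + W' ≤ ∑ i ∈ J.filter (fun i => m i ≤ μ), f i) ∨
          4 * (μ : ℤ) * z + W' ≤ ∑ i ∈ J.filter (fun i => μ < 2 * m i ∧ m i ≤ μ), f i) ∧
        ∑ i ∈ J.filter (fun i => μ < m i), f i ≤ 8 * (M : ℤ) * z + W' * k := by
  induction k with
  | zero =>
    intro M J hJ hM hY hmass
    have hM0 : (1 : ℤ) ≤ M := by exact_mod_cast hM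
    have hMz : 0 ≤ (M : ℤ) * z := mul_nonneg (by linarith) hz
    refine ⟨M, hM, le_rfl, Or.inl ⟨by omega, ?_⟩, ?_⟩
    · have h1 : J.filter (fun i => m i ≤ M) = J := Finset.filter_true_of_mem hJ
      rw [h1]
      push_cast at hmass
      linarith
    · have h1 : J.filter (fun i => M < m i) = ∅ := by
        rw [Finset.filter_eq_empty_iff]
        intro i hi
        have := hJ i hi
        omega
      rw [h1, Finset.sum_empty]
      push_cast
      linarith
  | succ k ih =>
    intro M J hJ hM hY hmass
    have hM0 : (1 : ℤ) ≤ M := by exact_mod_cast hM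
    have hMz : 0 ≤ (M : ℤ) * z := mul_nonneg (by linarith) hz
    have hWk : 0 ≤ W' * (k : ℤ) := mul_nonneg hW (by positivity)
    push_cast at hmass ⊢
    have e1 : W' * ((k : ℤ) + 1 + 1) = W' * k + 2 * W' := by ring
    have e2 : W' * ((k : ℤ) + 1) = W' * k + W' := by ring
    have hempty : J.filter (fun i => M < m i) = ∅ := by
      rw [Finset.filter_eq_empty_iff]
      intro i hi
      have := hJ i hi
      omega
    by_cases htop : 4 * (M : ℤ) * z + W' ≤ ∑ i ∈ J.filter (fun i => M < 2 * m i ∧ m i ≤ M), f i
    · refine ⟨M, hM, le_rfl, Or.inr htop, ?_⟩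
      rw [hempty, Finset.sum_empty]
      linarith
    · push Not at htop
      have hsplit : ∑ i ∈ J, f i = ∑ i ∈ J.filter (fun i => M < 2 * m i ∧ m i ≤ M), f i +
          ∑ i ∈ J.filter (fun i => 2 * m i ≤ M), f i := by
        rw [← Finset.sum_filter_add_sum_filter_not J (fun i => M < 2 * m i ∧ m i ≤ M)]
        congr 1
        refine Finset.sum_congr (Finset.filter_congr fun i hi => ?_) fun _ _ => rfl
        have := hJ i hi
        constructor
        · intro h
          by_contra h'
          exact h ⟨by omega, this⟩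
        · intro h h'
          omega
      set J' := J.filter (fun i => 2 * m i ≤ M) with hJ'
      by_cases hM1 : M = 1
      · -- the rest has no mass
        exfalso
        have h1 : ∑ i ∈ J', f i = 0 := by
          refine Finset.sum_eq_zero fun i hi => ?_
          rw [hJ', Finset.mem_filter] at hi
          exact hf0 i (by omega)
        rw [hM1] at hmass htop
        rw [hsplit, h1, hM1] at hmass
        norm_num at hmass htop
        linarith
      · have hM2 : 2 ≤ M := by omega
        have hhalf : 8 * ((M / 2 : ℕ) : ℤ) ≤ 4 * M := by omega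
        have hhalfz : 8 * ((M / 2 : ℕ) : ℤ) * z ≤ 4 * M * z := mul_le_mul_of_nonneg_right hhalf hz
        have hmass' : 8 * ((M / 2 : ℕ) : ℤ) * z + W' * ((k : ℤ) + 1) ≤ ∑ i ∈ J', f i := by
          linarith
        have hY' : 3 * (M / 2) ≤ 2 ^ k * Y := by
          have h1 : 2 ^ (k + 1) * Y = 2 * (2 ^ k * Y) := by ring
          omega
        obtain ⟨μ, h1, h2, h3, h4⟩ := ih (M / 2) J' (fun i hi => by
          rw [hJ', Finset.mem_filter] at hi
          omega) (by omega) hY' hmass'
        refine ⟨μ, h1, by omega, ?_, ?_⟩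
        · rcases h3 with ⟨h3, h5⟩ | h3
          · refine Or.inl ⟨h3, h5.trans ?_⟩
            refine Finset.sum_le_sum_of_subset_of_nonneg ?_ fun i _ _ => hf i
            intro i hi
            rw [Finset.mem_filter, hJ', Finset.mem_filter] at hi
            rw [Finset.mem_filter]
            exact ⟨hi.1.1, hi.2⟩
          · refine Or.inr (h3.trans ?_)
            refine Finset.sum_le_sum_of_subset_of_nonneg ?_ fun i _ _ => hf i
            intro i hi
            rw [Finset.mem_filter, hJ', Finset.mem_filter] at hi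
            rw [Finset.mem_filter]
            exact ⟨hi.1.1, hi.2⟩
        · have h5 : ∑ i ∈ J.filter (fun i => μ < m i), f i ≤
              ∑ i ∈ J'.filter (fun i => μ < m i), f i +
                ∑ i ∈ J.filter (fun i => M < 2 * m i ∧ m i ≤ M), f i := by
            rw [← Finset.sum_union]
            · refine Finset.sum_le_sum_of_subset_of_nonneg ?_ fun i _ _ => hf i
              intro i hi
              rw [Finset.mem_filter] at hi
              rw [hJ', Finset.mem_union, Finset.mem_filter, Finset.mem_filter, Finset.mem_filter]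
              have h6 := hJ i hi.1
              by_cases h7 : 2 * m i ≤ M
              · exact Or.inl ⟨⟨hi.1, h7⟩, hi.2⟩
              · exact Or.inr ⟨hi.1, by omega, h6⟩
            · rw [Finset.disjoint_left]
              intro i hi hi'
              rw [Finset.mem_filter, hJ', Finset.mem_filter] at hi
              rw [Finset.mem_filter] at hi'
              omega
          linarith

end Pool.Agent.Lib.MP_6b2d39_agUp
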