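import Pool.Agent.Lib.MP_6b2d39_agUn.BaseM
import Pool.Agent.Lib.MP_6b2d39_agUp.Early

/-!
THEOREM U+, numbers for the case of large multiplicities (`M > ((d + 1) / M) ^ 16`): one number `Y`
for all classes.
-/

set_option autoImplicit false

namespace Pool.Agent.Lib.MP_6b2d39_agUp

/-- numbers for the abstract rows: `M` bounds the multiplicities, `z` = first row, `Q` = slope -/
structure AbY (M z Q X W Y : ℕ) : Prop where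
  hM : 1 ≤ M
  hQ : 8 ≤ Q
  hz : 128 * M * Q ≤ z
  hX16 : 16 ≤ X
  hX : 13 * Real.log (6 * M / Y) + 16 ≤ X
  hzX : 80 * M * X ≤ z
  hy1 : 120000 * (2 * M ^ 2 / z + 2) * X ≤ Y
  hy2 : 280000 * M ≤ Y ^ 2
  hY1 : 3 * X * Y ^ 2 ≤ W
  hY2 : W + M ≤ 24 * X * Y ^ 2
  hY3 : 52 * z ≤ 3 * X * W
  hW4 : W ≤ 7 * M ^ 2

/-- numbers for the triangle of side `N` and the step `y = x ^ q` -/
structure NcY (M N q X W Y : ℕ) : Prop where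
  hM : 1 ≤ M
  hq : 3 ≤ q
  hqN : 256 * M * q ≤ N
  hX16 : 16 ≤ X
  hX : 13 * Real.log (6 * M / Y) + 16 ≤ X
  hzX : 160 * M * X ≤ q * N
  hy1 : 120000 * (4 * M ^ 2 / (q * N) + 2) * X ≤ Y
  hy2 : 280000 * M ≤ Y ^ 2
  hY1 : 3 * X * Y ^ 2 ≤ W
  hY2 : W + M ≤ 24 * X * Y ^ 2
  hY3 : 52 * (q * N) ≤ 3 * X * W
  hW4 : W ≤ 7 * M ^ 2

end Pool.Agent.Lib.MP_6b2d39_agUp
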