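import Pool.Agent.Lib.MP_6b2d39_agUp.P2Ar
import Pool.Agent.Lib.MP_6b2d39_agUp.ClassNeg
import Pool.Agent.Lib.MP_6b2d39_agUp.ClassPos

set_option autoImplicit false

namespace Pool.Agent.Lib.MP_6b2d39_agUp

open Pool.Agent.Lib.MP_6b2d39_agUn

open Pool.Agent.Lib.MP_6b2d39_agArr

variable {ι : Type} [DecidableEq ι]

private theorem eny_V {μ z V : ℕ} (hV1 : V ≤ μ) (hV2 : V * μ ≤ 13 * z) : V ^ 2 ≤ 13 * z := by
  calc V ^ 2 = V * V := by ring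
    _ ≤ V * μ := Nat.mul_le_mul_left _ hV1
    _ ≤ 13 * z := hV2

private theorem eny_YV {X W Y V z : ℕ} (hX : 1 ≤ X) (hV : V ^ 2 ≤ 13 * z)
    (h1 : 3 * X * Y ^ 2 ≤ W) (h3 : 52 * z ≤ 3 * X * W) : 2 * (Y * V) ≤ W := by
  apply (Nat.pow_le_pow_iff_left (n := 2) (by norm_num)).1
  have h4 : 3 * X * (2 * (Y * V)) ^ 2 ≤ 3 * X * W ^ 2 := by
    calc 3 * X * (2 * (Y * V)) ^ 2 = 4 * (3 * X * Y ^ 2) * V ^ 2 := by ring
      _ ≤ 4 * W * (13 * z) := by gcongr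
      _ = 52 * z * W := by ring
      _ ≤ 3 * X * W * W := Nat.mul_le_mul_right _ h3
      _ = 3 * X * W ^ 2 := by ring
  exact Nat.le_of_mul_le_mul_left h4 (by omega)

private theorem eny_wV {μ z q V M : ℕ} (h1 : 1 ≤ μ) (hM : μ ≤ M) (hq : q * z ≤ 2 * μ ^ 2)
    (hV1 : V ≤ μ) (hV2 : V * μ ≤ 13 * z) : (q + 2) * V ≤ 28 * M := by
  have h : q * V ≤ 26 * μ := by
    have h2 : (q * V) * μ ≤ (26 * μ) * μ := by
      calc (q * V) * μ = q * (V * μ) := by ring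
        _ ≤ q * (13 * z) := Nat.mul_le_mul_left _ hV2
        _ = 13 * (q * z) := by ring
        _ ≤ 13 * (2 * μ ^ 2) := Nat.mul_le_mul_left _ hq
        _ = (26 * μ) * μ := by ring
    exact Nat.le_of_mul_le_mul_right h2 (by omega)
  calc (q + 2) * V = q * V + 2 * V := by ring
    _ ≤ 26 * μ + 2 * μ := by omega
    _ = 28 * μ := by ring
    _ ≤ 28 * M := Nat.mul_le_mul_left _ hM

/-- the parameters of the class with top `μ` -/
private theorem ar_paY {M z Q X W Y : ℕ} (h : AbY M z Q X W Y) {μ y : ℕ} (h1 : 1 ≤ μ)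
    (hμ : μ ≤ M) (hy : 4 * μ ≤ y) : ∃ P : Pa, P.M = μ ∧ P.z = z ∧ P.Q = Q ∧ P.T = y ∧ P.X = X ∧
      P.y0 = Y ∧
      3000 * P.w * (W + M) ≤ P.y0 ^ 3 ∧ 2 * P.y0 ^ 2 + P.y0 * (P.Vs + P.X * P.y0) ≤ W := by
  have hY := aby_pos h
  have hX16 := h.hX16
  have hY0 : (1 : ℝ) ≤ Y := by exact_mod_cast hY
  have hM0 : (1 : ℝ) ≤ μ := by exact_mod_cast h1
  have hμM : (μ : ℝ) ≤ M := by exact_mod_cast hμ
  have hl : Real.log (6 * μ / Y) ≤ Real.log (6 * M / Y) := by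
    apply Real.log_le_log (by positivity)
    apply div_le_div_of_nonneg_right (by linarith) (by linarith)
  have hX := h.hX
  have hMz : M ≤ z := by
    have h2 := h.hz
    have h3 := h.hQ
    calc M = M * 1 := by ring
      _ ≤ 128 * M * Q := by nlinarith [Nat.zero_le M]
      _ ≤ z := h2
  have hqM : 2 * μ ^ 2 / z ≤ 2 * M ^ 2 / z :=
    Nat.div_le_div_right (Nat.mul_le_mul_left _ (Nat.pow_le_pow_left hμ 2))
  have k1 : 120000 * (2 * μ ^ 2 / z + 2) * X ≤ Y := by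
    refine le_trans ?_ h.hy1
    exact Nat.mul_le_mul_right _ (Nat.mul_le_mul_left _ (by omega))
  have hV2 : min μ (11 * z / μ + 2) * μ ≤ 13 * z := by
    have h2 : min μ (11 * z / μ + 2) ≤ 11 * z / μ + 2 := min_le_right _ _
    have h3 : 11 * z / μ * μ ≤ 11 * z := Nat.div_mul_le_self _ _
    calc min μ (11 * z / μ + 2) * μ ≤ (11 * z / μ + 2) * μ := Nat.mul_le_mul_right _ h2
      _ = 11 * z / μ * μ + 2 * μ := by ring
      _ ≤ 11 * z + 2 * z := by omega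
      _ = 13 * z := by ring
  have hV1 : min μ (11 * z / μ + 2) ≤ μ := min_le_left _ _
  have hwV := eny_wV h1 hμ (Nat.div_mul_le_self (2 * μ ^ 2) z) hV1 hV2
  have hYV := eny_YV (by omega) (eny_V hV1 hV2) h.hY1 h.hY3
  have k2 : 10000 * (2 * μ ^ 2 / z + 2) * min μ (11 * z / μ + 2) ≤ Y ^ 2 := by
    calc 10000 * (2 * μ ^ 2 / z + 2) * min μ (11 * z / μ + 2)
        = 10000 * ((2 * μ ^ 2 / z + 2) * min μ (11 * z / μ + 2)) := by ring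
      _ ≤ 10000 * (28 * M) := Nat.mul_le_mul_left _ hwV
      _ = 280000 * M := by ring
      _ ≤ Y ^ 2 := h.hy2
  have k3 : 3000 * (2 * μ ^ 2 / z + 2) * (W + M) ≤ Y ^ 3 := by
    calc 3000 * (2 * μ ^ 2 / z + 2) * (W + M)
        ≤ 3000 * (2 * μ ^ 2 / z + 2) * (24 * X * Y ^ 2) := Nat.mul_le_mul_left _ h.hY2
      _ = 72000 * (2 * μ ^ 2 / z + 2) * X * Y ^ 2 := by ring
      _ ≤ 120000 * (2 * μ ^ 2 / z + 2) * X * Y ^ 2 := by gcongr; norm_num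
      _ ≤ Y * Y ^ 2 := Nat.mul_le_mul_right _ k1
      _ = Y ^ 3 := by ring
  have k4 : 2 * Y ^ 2 + Y * (min μ (11 * z / μ + 2) + X * Y) ≤ W := by
    obtain ⟨V, hV⟩ : ∃ V, V = min μ (11 * z / μ + 2) := ⟨_, rfl⟩
    rw [← hV] at hYV ⊢
    have e1 : 16 * Y ^ 2 ≤ X * Y ^ 2 := Nat.mul_le_mul_right _ hX16
    have e2 := h.hY1
    have e3 : 3 * X * Y ^ 2 = 3 * (X * Y ^ 2) := by ring
    have e4 : 2 * Y ^ 2 + Y * (V + X * Y) = 2 * Y ^ 2 + Y * V + X * Y ^ 2 := by ring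
    rw [e4]
    omega
  refine ⟨⟨μ, z, Q, y, 2 * μ ^ 2 / z + 2, X, Y, h1, h.hQ, ?_, hy, rfl, hX16, by linarith, ?_, k1,
    k2⟩, rfl, rfl, rfl, rfl, rfl, rfl, k3, k4⟩
  · calc 16 * μ * Q ≤ 128 * M * Q := by gcongr; norm_num
      _ ≤ z := h.hz
  · calc 80 * μ * X ≤ 80 * M * X := by gcongr
      _ ≤ z := h.hzX

/-- `ar_classY` (`Z = ∅`), `class_neg` -/
theorem ar_negY {M z Q X W Y T : ℕ} (h : AbY M z Q X W Y) {R : ℕ → ℤ} (hR : RwA M z Q T R)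
    {m : ι → ℕ} {J : Finset ι} (hm : ∀ i ∈ J, m i ≤ M) {v0 : ℤ}
    (hs : ∑ c ∈ Finset.range T, R c = v0 + ms m J) (h1 : v0 ≤ -(W : ℤ))
    (h2 : -((W : ℤ) + M) ≤ v0) : Cert m J T R := by
  have hM0 : (1 : ℤ) ≤ M := by exact_mod_cast h.hM
  have hW0 : (0 : ℤ) ≤ W := by positivity
  have hv : |v0| ≤ W + M ^ 2 := by
    rw [abs_le]
    constructor <;> nlinarith
  obtain ⟨μ, y, J', D, hμ1, hμM, -, hJ', hcl, hy, hD0, hD1, hD2, hD3, hsum, hC⟩ :=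
    ar_classY h hR (Finset.disjoint_empty_right J) hm hv hs
  rw [Finset.union_empty, Finset.union_empty] at hC
  obtain ⟨P, hPM, hPz, hPQ, hPT, hPX, hPY, k3, k4⟩ := ar_paY h hμ1 hμM hy
  have hRw : Rw P D := by
    refine ⟨by rw [hPz]; exact hD0, ?_, ?_, by rw [hPT]; exact hD3⟩
    · rw [hPM, hPQ]
      exact hD1
    · rw [hPT, hPQ]
      exact hD2
  have k3' : (3000 : ℤ) * P.w * (W + M) ≤ (P.y0 : ℤ) ^ 3 := by exact_mod_cast k3
  have k4' : 2 * (P.y0 : ℤ) ^ 2 + P.y0 * (P.Vs + P.X * P.y0) ≤ W := by exact_mod_cast k4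
  refine hC ?_
  rw [← hPT]
  refine class_neg hRw (fun i hi => ?_) (fun hlt i hi => ?_) (v0 := v0) ?_ ?_ ?_
  · rw [hPM]
    exact hJ' i hi
  · rw [hPM, hPY] at hlt
    rw [hPM]
    rcases hcl with h3 | h3
    · omega
    · exact h3 i hi
  · rw [hPT]
    exact hsum
  · have h3 : (0 : ℤ) ≤ 3000 * P.w := by positivity
    have h4 : 3000 * (P.w : ℤ) * (-v0) ≤ 3000 * P.w * (W + M) :=
      mul_le_mul_of_nonneg_left (by linarith) h3
    linarith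
  · have h3 : (0 : ℤ) ≤ (P.y0 : ℤ) ^ 2 := by positivity
    linarith

/-- `ar_classY`, `class_pos` -/
theorem ar_posY {M z Q X W Y T : ℕ} (h : AbY M z Q X W Y) {R : ℕ → ℤ} (hR : RwA M z Q T R)
    {m : ι → ℕ} {J Z : Finset ι} (hJZ : Disjoint J Z) (hm : ∀ i ∈ J, m i ≤ M)
    (hZ : ∀ i ∈ Z, m i = 1) (hs : ∑ c ∈ Finset.range T, R c = Z.card + ms m J)
    (h1 : W ≤ Z.card) (h2 : Z.card ≤ W + M ^ 2) : Cert m (J ∪ Z) T R := by
  have h2' : (Z.card : ℤ) ≤ W + (M : ℤ) ^ 2 := by exact_mod_cast h2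
  have hv : |(Z.card : ℤ)| ≤ W + M ^ 2 := by
    rw [abs_of_nonneg (by positivity)]
    exact h2'
  obtain ⟨μ, y, J', D, hμ1, hμM, hJJ, hJ', hcl, hy, hD0, hD1, hD2, hD3, hsum, hC⟩ :=
    ar_classY h hR hJZ hm hv hs
  obtain ⟨P, hPM, hPz, hPQ, hPT, hPX, hPY, k3, k4⟩ := ar_paY h hμ1 hμM hy
  have hRw : Rw P D := by
    refine ⟨by rw [hPz]; exact hD0, ?_, ?_, by rw [hPT]; exact hD3⟩
    · rw [hPM, hPQ]
      exact hD1
    · rw [hPT, hPQ]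
      exact hD2
  have k4' : 2 * (P.y0 : ℤ) ^ 2 + P.y0 * (P.Vs + P.X * P.y0) ≤ W := by exact_mod_cast k4
  have h1' : (W : ℤ) ≤ Z.card := by exact_mod_cast h1
  refine hC ?_
  rw [← hPT]
  refine class_pos hRw (Finset.disjoint_of_subset_left hJJ hJZ) (fun i hi => ?_)
    (fun hlt i hi => ?_) hZ ?_ (by linarith)
  · rw [hPM]
    exact hJ' i hi
  · rw [hPM, hPY] at hlt
    rw [hPM]
    rcases hcl with h3 | h3
    · omega
    · exact h3 i hi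
  · rw [hPT]
    exact hsum

end Pool.Agent.Lib.MP_6b2d39_agUp
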