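import Pool.Agent.Lib.MP_6b2d39_agUp.P2Base

set_option autoImplicit false

namespace Pool.Agent.Lib.MP_6b2d39_agUp

/-- real data: `r = N / M`, `a = M ^ (9/8)`, `l = log (r + 2)` -/
private structure Ry (M N W : ℕ) (r a l : ℝ) : Prop where
  hM : 1 ≤ M
  hN : (N : ℝ) = r * M
  hr : 10 ^ 10 ≤ r
  hl : 1 ≤ l
  hlr : l ≤ 2 * r
  hlog : Real.log r ≤ l
  ha : (M : ℝ) ≤ a
  har : r ^ 2 * M ≤ a
  hW : 10 ^ 43 * (a + M ^ 2 / r ^ 4) * l ^ 3 ≤ W
  hW7 : W ≤ 7 * M ^ 2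

private theorem ry_nc {M N W : ℕ} {r a l : ℝ} (h : Ry M N W r a l) :
    ∃ q X Y : ℕ, NcY M N q X W Y := by
  have hM := h.hM
  have hm : (1 : ℝ) ≤ M := by exact_mod_cast hM
  have hr := h.hr
  have hl := h.hl
  have ha := h.ha
  have hr0 : 0 < r := by linarith
  have hl0 : 0 < l := by linarith
  have hB : (0 : ℝ) ≤ (M : ℝ) ^ 2 / r ^ 4 := by positivity
  have hl2 : l ≤ l ^ 2 := by nlinarith
  have hl3 : l ^ 2 ≤ l ^ 3 := by nlinarith [sq_nonneg l]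
  -- the number `X`
  obtain ⟨X, hX⟩ : ∃ X : ℕ, X = ⌈42 * l⌉₊ := ⟨_, rfl⟩
  have hX1 : 42 * l ≤ X := by rw [hX]; exact Nat.le_ceil _
  have hX2 : (X : ℝ) ≤ 43 * l := by
    have := Nat.ceil_lt_add_one (by positivity : 0 ≤ 42 * l)
    rw [hX]
    linarith
  have hX16 : 16 ≤ X := by
    have : (16 : ℝ) ≤ X := by linarith
    exact_mod_cast this
  have hXpos : (0 : ℝ) < X := by linarith
  -- the number `q`
  obtain ⟨q, hq⟩ : ∃ q : ℕ, q = N / (256 * M) := ⟨_, rfl⟩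
  have hMpos : 0 < 256 * M := by omega
  have hqN : 256 * M * q ≤ N := by
    rw [hq]
    exact Nat.mul_div_le N (256 * M)
  have hq2 : r / 512 ≤ q := by
    have h1 : N < 256 * M * (q + 1) := by
      rw [hq]
      exact Nat.lt_mul_div_succ N hMpos
    have h2 : (N : ℝ) < 256 * M * (q + 1) := by exact_mod_cast h1
    rw [h.hN] at h2
    have h3 : (r - 256 * (q + 1)) * M < 0 := by linarith
    have h4 : r < 256 * (q + 1) := by
      by_contra hc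
      push Not at hc
      have : 0 ≤ (r - 256 * (q + 1)) * M := mul_nonneg (by linarith) (by linarith)
      linarith
    linarith
  have hq3 : 3 ≤ q := by
    have : (3 : ℝ) ≤ q := by linarith
    exact_mod_cast this
  have hq1 : 256 * (q : ℝ) ≤ r := by
    have h1 : ((256 * M * q : ℕ) : ℝ) ≤ (N : ℝ) := by exact_mod_cast hqN
    push_cast at h1
    rw [h.hN] at h1
    have h3 : 0 ≤ (r - 256 * q) * M := by linarith
    by_contra hc
    push Not at hc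
    have : (r - 256 * (q : ℝ)) * M < 0 := mul_neg_of_neg_of_pos (by linarith) (by linarith)
    linarith
  have hqN1 : r ^ 2 * M / 512 ≤ q * N := by
    rw [h.hN]
    have h1 : r / 512 * (r * M) ≤ q * (r * M) := mul_le_mul_of_nonneg_right hq2 (by positivity)
    have h2 : r / 512 * (r * M) = r ^ 2 * M / 512 := by ring
    linarith
  have hqN2 : 256 * ((q : ℝ) * N) ≤ r ^ 2 * M := by
    rw [h.hN]
    have h1 : 256 * (q : ℝ) * (r * M) ≤ r * (r * M) := mul_le_mul_of_nonneg_right hq1 (by positivity)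
    have h2 : r * (r * M) = r ^ 2 * M := by ring
    have h3 : 256 * ((q : ℝ) * (r * M)) = 256 * (q : ℝ) * (r * M) := by ring
    linarith
  have hqNpos : 0 < (q : ℝ) * N := by
    have : 0 < r ^ 2 * M / 512 := by positivity
    linarith
  -- the number `Y`
  obtain ⟨S, hS⟩ : ∃ S : ℕ, S = W / (3 * X) := ⟨_, rfl⟩
  obtain ⟨Y, hY⟩ : ∃ Y : ℕ, Y = Nat.sqrt S := ⟨_, rfl⟩
  have hS1 : 3 * X * S ≤ W := by rw [hS]; exact Nat.mul_div_le W (3 * X)
  have hS2 : W < 3 * X * (S + 1) := by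
    rw [hS]
    exact Nat.lt_mul_div_succ W (by omega)
  have hY1 : Y ^ 2 ≤ S := by rw [hY]; exact Nat.sqrt_le' S
  have hY2 : S + 1 ≤ (Y + 1) ^ 2 := by rw [hY]; exact Nat.lt_succ_sqrt' S
  have hW2 : W < 3 * X * (Y + 1) ^ 2 := lt_of_lt_of_le hS2 (Nat.mul_le_mul_left _ hY2)
  have hW2r : (W : ℝ) < 3 * X * ((Y : ℝ) + 1) ^ 2 := by exact_mod_cast hW2
  have hWl : 10 ^ 43 * (a + (M : ℝ) ^ 2 / r ^ 4) * l ^ 3 ≤ W := h.hW
  have hab : 1 ≤ a + (M : ℝ) ^ 2 / r ^ 4 := by linarith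
  -- `(Y + 1) ^ 2` is large
  have hbig : 7 * 10 ^ 40 * ((a + (M : ℝ) ^ 2 / r ^ 4) * l ^ 2) ≤ ((Y : ℝ) + 1) ^ 2 := by
    have h1 : 3 * (X : ℝ) * ((Y : ℝ) + 1) ^ 2 ≤ 129 * l * ((Y : ℝ) + 1) ^ 2 :=
      mul_le_mul_of_nonneg_right (by linarith) (by positivity)
    have h2 : 10 ^ 43 * (a + (M : ℝ) ^ 2 / r ^ 4) * l ^ 3 ≤ 129 * l * ((Y : ℝ) + 1) ^ 2 := by
      linarith
    have h3 : 10 ^ 43 * (a + (M : ℝ) ^ 2 / r ^ 4) * l ^ 3 =
        l * (10 ^ 43 * ((a + (M : ℝ) ^ 2 / r ^ 4) * l ^ 2)) := by ring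
    have h4 : l * (10 ^ 43 * ((a + (M : ℝ) ^ 2 / r ^ 4) * l ^ 2)) ≤
        l * (129 * ((Y : ℝ) + 1) ^ 2) := by
      rw [← h3]
      linarith
    have h5 := le_of_mul_le_mul_left h4 hl0
    have h6 : 0 ≤ (a + (M : ℝ) ^ 2 / r ^ 4) * l ^ 2 := by positivity
    nlinarith
  have hYpos : 1 ≤ Y := by
    by_contra hc
    have h1 : Y = 0 := by omega
    rw [h1] at hbig
    have h2 : 1 ≤ (a + (M : ℝ) ^ 2 / r ^ 4) * l ^ 2 := by nlinarith
    norm_num at hbig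
    nlinarith
  have hYr : (1 : ℝ) ≤ Y := by exact_mod_cast hYpos
  have hY4 : ((Y : ℝ) + 1) ^ 2 ≤ 4 * (Y : ℝ) ^ 2 := by nlinarith
  have hbig2 : 10 ^ 40 * ((a + (M : ℝ) ^ 2 / r ^ 4) * l ^ 2) ≤ (Y : ℝ) ^ 2 := by
    have h6 : 0 ≤ (a + (M : ℝ) ^ 2 / r ^ 4) * l ^ 2 := by positivity
    linarith
  -- `Y ≥ 10 ^ 20 l` and `Y ≥ 10 ^ 20 M l / r ^ 2`
  have hYa : 10 ^ 20 * l ≤ Y := by
    have h1 : (10 ^ 20 * l) ^ 2 ≤ (Y : ℝ) ^ 2 := by
      have h2 : 1 * l ^ 2 ≤ (a + (M : ℝ) ^ 2 / r ^ 4) * l ^ 2 :=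
        mul_le_mul_of_nonneg_right hab (by positivity)
      have h3 : (10 ^ 20 * l) ^ 2 = 10 ^ 40 * (1 * l ^ 2) := by ring
      rw [h3]
      linarith
    exact (sq_le_sq₀ (by positivity) (by positivity)).1 h1
  have hYb : 10 ^ 20 * (M / r ^ 2 * l) ≤ Y := by
    have h1 : (10 ^ 20 * ((M : ℝ) / r ^ 2 * l)) ^ 2 ≤ (Y : ℝ) ^ 2 := by
      have h2 : ((M : ℝ) ^ 2 / r ^ 4) * l ^ 2 ≤ (a + (M : ℝ) ^ 2 / r ^ 4) * l ^ 2 :=
        mul_le_mul_of_nonneg_right (by linarith) (by positivity)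
      have h3 : (10 ^ 20 * ((M : ℝ) / r ^ 2 * l)) ^ 2 =
          10 ^ 40 * (((M : ℝ) ^ 2 / r ^ 4) * l ^ 2) := by
        field_simp
      rw [h3]
      linarith
    exact (sq_le_sq₀ (by positivity) (by positivity)).1 h1
  have hMW : M ≤ W := by
    have h1 : (M : ℝ) ≤ W := by
      have h2 : 1 * (M : ℝ) ≤ 10 ^ 43 * (a + (M : ℝ) ^ 2 / r ^ 4) * l ^ 3 := by
        have h3 : (1 : ℝ) ≤ l ^ 3 := by nlinarith
        have h4 : 1 * (M : ℝ) ≤ 10 ^ 43 * (a + (M : ℝ) ^ 2 / r ^ 4) := by linarith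
        have h5 : 10 ^ 43 * (a + (M : ℝ) ^ 2 / r ^ 4) * 1 ≤
            10 ^ 43 * (a + (M : ℝ) ^ 2 / r ^ 4) * l ^ 3 :=
          mul_le_mul_of_nonneg_left h3 (by positivity)
        linarith
      linarith
    exact_mod_cast h1
  refine ⟨q, X, Y, hM, hq3, hqN, hX16, ?_, ?_, ?_, ?_, ?_, ?_, ?_, h.hW7⟩
  · -- `13 log (6 M / Y) + 16 ≤ X`
    have h1 : 6 * (M : ℝ) / Y ≤ r ^ 2 := by
      rw [div_le_iff₀ (by linarith)]
      have h2 : r ^ 2 * (10 ^ 20 * (M / r ^ 2 * l)) ≤ r ^ 2 * Y :=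
        mul_le_mul_of_nonneg_left hYb (by positivity)
      have h3 : r ^ 2 * (10 ^ 20 * (M / r ^ 2 * l)) = 10 ^ 20 * (M * l) := by
        field_simp
      have h4 : (M : ℝ) * 1 ≤ M * l := mul_le_mul_of_nonneg_left hl (by linarith)
      linarith
    have h2 : Real.log (6 * (M : ℝ) / Y) ≤ 2 * Real.log r := by
      have h3 : Real.log (6 * (M : ℝ) / Y) ≤ Real.log (r ^ 2) :=
        Real.log_le_log (by positivity) h1
      rw [Real.log_pow] at h3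
      push_cast at h3
      exact h3
    have h3 := h.hlog
    linarith
  · -- `160 M X ≤ q N`
    have h1 : 160 * (M : ℝ) * X ≤ q * N := by
      have h2 : 160 * (M : ℝ) * X ≤ 160 * M * (43 * l) :=
        mul_le_mul_of_nonneg_left hX2 (by positivity)
      have h3 : 160 * (M : ℝ) * (43 * l) ≤ 160 * M * (43 * (2 * r)) :=
        mul_le_mul_of_nonneg_left (by linarith [h.hlr]) (by positivity)
      have h4 : 160 * (M : ℝ) * (43 * (2 * r)) ≤ r ^ 2 * M / 512 := by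
        have h5 : 10 ^ 10 * (r * M) ≤ r * (r * M) := mul_le_mul_of_nonneg_right hr (by positivity)
        have h6 : 0 ≤ r * M := by positivity
        have h7 : r ^ 2 * M / 512 = r * (r * M) / 512 := by ring
        rw [h7]
        linarith
      linarith
    have h2 : ((160 * M * X : ℕ) : ℝ) ≤ ((q * N : ℕ) : ℝ) := by push_cast; exact h1
    exact_mod_cast h2
  · -- `120000 w X ≤ Y`
    have h1 : ((4 * M ^ 2 / (q * N) : ℕ) : ℝ) ≤ 2048 * (M / r ^ 2) := by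
      have h2 : ((4 * M ^ 2 / (q * N) : ℕ) : ℝ) ≤ 4 * (M : ℝ) ^ 2 / (q * N) := by
        have := Nat.cast_div_le (α := ℝ) (m := 4 * M ^ 2) (n := q * N)
        push_cast at this
        exact this
      refine h2.trans ?_
      rw [div_le_iff₀ hqNpos]
      have h3 : 2048 * ((M : ℝ) / r ^ 2) * (r ^ 2 * M / 512) ≤ 2048 * (M / r ^ 2) * (q * N) :=
        mul_le_mul_of_nonneg_left hqN1 (by positivity)
      have h4 : 2048 * ((M : ℝ) / r ^ 2) * (r ^ 2 * M / 512) = 4 * (M : ℝ) ^ 2 := by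
        field_simp
        ring
      linarith
    have h2 : 120000 * (((4 * M ^ 2 / (q * N) : ℕ) : ℝ) + 2) * X ≤ Y := by
      have h3 : 120000 * (((4 * M ^ 2 / (q * N) : ℕ) : ℝ) + 2) * X ≤
          120000 * (2048 * (M / r ^ 2) + 2) * (43 * l) :=
        mul_le_mul (by linarith) hX2 (by positivity) (by positivity)
      have h4 : 120000 * (2048 * ((M : ℝ) / r ^ 2) + 2) * (43 * l) =
          10567680000 * (M / r ^ 2 * l) + 10320000 * l := by ring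
      have h5 : 0 ≤ (M : ℝ) / r ^ 2 * l := by positivity
      rw [h4] at h3
      have h6 : (10 : ℝ) ^ 20 = 100000000000000000000 := by norm_num
      rw [h6] at hYa hYb
      linarith
    have h3 : ((120000 * (4 * M ^ 2 / (q * N) + 2) * X : ℕ) : ℝ) ≤ (Y : ℝ) := by
      push_cast
      push_cast at h2
      exact h2
    exact_mod_cast h3
  · -- `280000 M ≤ Y ^ 2`
    have h1 : 280000 * (M : ℝ) ≤ (Y : ℝ) ^ 2 := by
      have h2 : (M : ℝ) * 1 ≤ (a + (M : ℝ) ^ 2 / r ^ 4) * l ^ 2 :=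
        mul_le_mul (by linarith) (by nlinarith) (by norm_num) (by linarith)
      have h6 : (10 : ℝ) ^ 40 = 10000000000000000000000000000000000000000 := by norm_num
      rw [h6] at hbig2
      linarith
    exact_mod_cast h1
  · -- `3 X Y ^ 2 ≤ W`
    exact (Nat.mul_le_mul_left _ hY1).trans hS1
  · -- `W + M ≤ 24 X Y ^ 2`
    have h1 : (Y + 1) ^ 2 ≤ 4 * Y ^ 2 := by nlinarith
    have h2 : 3 * X * (Y + 1) ^ 2 ≤ 3 * X * (4 * Y ^ 2) := Nat.mul_le_mul_left _ h1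
    have h3 : 3 * X * (4 * Y ^ 2) = 12 * (X * Y ^ 2) := by ring
    have h4 : 24 * X * Y ^ 2 = 24 * (X * Y ^ 2) := by ring
    omega
  · -- `52 q N ≤ 3 X W`
    have h1 : 52 * ((q : ℝ) * N) ≤ W := by
      have h2 := h.har
      have h3 : a * 1 ≤ (a + (M : ℝ) ^ 2 / r ^ 4) * l ^ 3 :=
        mul_le_mul (by linarith) (by nlinarith) (by norm_num) (by linarith)
      have h4 : 10 ^ 43 * (a + (M : ℝ) ^ 2 / r ^ 4) * l ^ 3 =
          10 ^ 43 * ((a + (M : ℝ) ^ 2 / r ^ 4) * l ^ 3) := by ring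
      rw [h4] at hWl
      have h6 : (10 : ℝ) ^ 43 = 10000000000000000000000000000000000000000000 := by norm_num
      rw [h6] at hWl
      linarith
    have h2 : 52 * (q * N) ≤ W := by
      have h3 : ((52 * (q * N) : ℕ) : ℝ) ≤ (W : ℝ) := by push_cast; exact h1
      exact_mod_cast h3
    have h3 : 1 * W ≤ 3 * X * W := Nat.mul_le_mul_right _ (by omega)
    omega

/-- the choice of the numbers if `M > r ^ 16`, `r = N / M` -/
theorem ch_y {M N : ℕ} {r C : ℝ} (hM : 1 ≤ M) (hN : 1 ≤ N) (hr : r = N / M) (hC : 10 ^ 44 ≤ C)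
    (hMr : r ^ 16 ≤ M)
    (hW : C * ((M : ℝ) ^ (9 / 8 : ℝ) + (M : ℝ) ^ 6 / (N : ℝ) ^ 4) * Real.log (r + 2) ^ 3 <
      6 * (M : ℝ) ^ 2) :
    ∃ q X Y : ℕ, NcY M N q X
      ⌊C * ((M : ℝ) ^ (9 / 8 : ℝ) + (M : ℝ) ^ 6 / (N : ℝ) ^ 4) * Real.log (r + 2) ^ 3⌋₊ Y := by
  have hm : (1 : ℝ) ≤ M := by exact_mod_cast hM
  have hn : (1 : ℝ) ≤ N := by exact_mod_cast hN
  have hr0 : 0 < r := by
    rw [hr]
    positivity
  have hNr : (N : ℝ) = r * M := by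
    rw [hr]
    field_simp
  obtain ⟨l, hl⟩ : ∃ l, l = Real.log (r + 2) := ⟨_, rfl⟩
  obtain ⟨a, ha⟩ : ∃ a, a = (M : ℝ) ^ (9 / 8 : ℝ) := ⟨_, rfl⟩
  rw [← hl, ← ha] at hW ⊢
  have hl2 : 1 / 2 ≤ l := by
    rw [hl]
    have h1 := Real.log_two_gt_d9
    have h2 : Real.log 2 ≤ Real.log (r + 2) := Real.log_le_log (by norm_num) (by linarith)
    linarith
  have hlr : l ≤ r + 1 := by
    rw [hl]
    have := Real.log_le_sub_one_of_pos (by linarith : 0 < r + 2)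
    linarith
  have hlogr : Real.log r ≤ l := by
    rw [hl]
    exact Real.log_le_log hr0 (by linarith)
  have hBe : (M : ℝ) ^ 6 / (N : ℝ) ^ 4 = (M : ℝ) ^ 2 / r ^ 4 := by
    rw [hNr]
    field_simp
  rw [hBe] at hW ⊢
  have hMa : (M : ℝ) ≤ a := by
    rw [ha]
    calc (M : ℝ) = (M : ℝ) ^ (1 : ℝ) := (Real.rpow_one _).symm
      _ ≤ (M : ℝ) ^ (9 / 8 : ℝ) := Real.rpow_le_rpow_of_exponent_le hm (by norm_num)
  have hB0 : (0 : ℝ) ≤ (M : ℝ) ^ 2 / r ^ 4 := by positivity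
  have hC0 : 0 < C := lt_of_lt_of_le (by positivity) hC
  -- `r` is large
  have hrl : 10 ^ 10 ≤ r := by
    have h1 : C * ((M : ℝ) ^ 2 / r ^ 4) * (1 / 8) ≤ C * (a + (M : ℝ) ^ 2 / r ^ 4) * l ^ 3 := by
      have h2 : (1 / 8 : ℝ) ≤ l ^ 3 := by
        have := pow_le_pow_left₀ (by norm_num : (0 : ℝ) ≤ 1 / 2) hl2 3
        linarith
      refine mul_le_mul (mul_le_mul_of_nonneg_left (by linarith) hC0.le) h2 (by norm_num) ?_
      exact mul_nonneg hC0.le (by linarith)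
    have h2 : C * ((M : ℝ) ^ 2 / r ^ 4) * (1 / 8) < 6 * (M : ℝ) ^ 2 := lt_of_le_of_lt h1 hW
    have h3 : C * ((M : ℝ) ^ 2 / r ^ 4) * (1 / 8) = C * (M : ℝ) ^ 2 / (8 * r ^ 4) := by
      field_simp
    rw [h3, div_lt_iff₀ (by positivity)] at h2
    have h4 : C * (M : ℝ) ^ 2 < (48 * r ^ 4) * (M : ℝ) ^ 2 := by linarith
    have h5 : C < 48 * r ^ 4 := lt_of_mul_lt_mul_right h4 (by positivity)
    have h6 : ((10 : ℝ) ^ 10) ^ 4 ≤ r ^ 4 := by
      have h7 : ((10 : ℝ) ^ 10) ^ 4 * 48 ≤ 10 ^ 44 := by norm_num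
      linarith
    exact (pow_le_pow_iff_left₀ (by positivity) hr0.le (by norm_num)).1 h6
  have hl1 : 1 ≤ l := by
    rw [hl, Real.le_log_iff_exp_le (by linarith)]
    have h3 := Real.exp_one_lt_d9
    linarith
  have har : r ^ 2 * M ≤ a := by
    have h1 : r ^ 2 ≤ (M : ℝ) ^ (1 / 8 : ℝ) := by
      have h2 : (r ^ 2) ^ 8 ≤ ((M : ℝ) ^ (1 / 8 : ℝ)) ^ 8 := by
        have h3 : ((M : ℝ) ^ (1 / 8 : ℝ)) ^ 8 = M := by
          rw [← Real.rpow_natCast, ← Real.rpow_mul (by linarith)]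
          norm_num
        rw [h3]
        have h4 : (r ^ 2) ^ 8 = r ^ 16 := by ring
        rw [h4]
        exact hMr
      exact (pow_le_pow_iff_left₀ (by positivity) (by positivity) (by norm_num)).1 h2
    have h2 : a = (M : ℝ) ^ (1 / 8 : ℝ) * M := by
      rw [ha]
      calc (M : ℝ) ^ (9 / 8 : ℝ) = (M : ℝ) ^ ((1 / 8 : ℝ) + 1) := by norm_num
        _ = (M : ℝ) ^ (1 / 8 : ℝ) * (M : ℝ) ^ (1 : ℝ) := Real.rpow_add (by linarith) _ _
        _ = _ := by rw [Real.rpow_one]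
    rw [h2]
    exact mul_le_mul_of_nonneg_right h1 (by linarith)
  obtain ⟨w, hw⟩ : ∃ w, w = C * (a + (M : ℝ) ^ 2 / r ^ 4) * l ^ 3 := ⟨_, rfl⟩
  rw [← hw] at hW ⊢
  have hab : 1 ≤ (a + (M : ℝ) ^ 2 / r ^ 4) * l ^ 3 := by
    have h1 : (1 : ℝ) ≤ l ^ 3 := one_le_pow₀ hl1
    nlinarith
  have hw1 : 10 ^ 44 * ((a + (M : ℝ) ^ 2 / r ^ 4) * l ^ 3) ≤ w := by
    rw [hw, mul_assoc]
    exact mul_le_mul_of_nonneg_right hC (by linarith)
  have hw0 : 0 ≤ w := le_trans (by positivity) hw1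
  refine ry_nc (r := r) (a := a) (l := l) ⟨hM, hNr, hrl, hl1, by linarith, hlogr, hMa, har, ?_, ?_⟩
  · have h1 := Nat.lt_floor_add_one w
    have h2 : 10 ^ 43 * (a + (M : ℝ) ^ 2 / r ^ 4) * l ^ 3 =
        10 ^ 43 * ((a + (M : ℝ) ^ 2 / r ^ 4) * l ^ 3) := by ring
    rw [h2]
    have h3 : (10 : ℝ) ^ 44 = 10 ^ 43 * 10 := by norm_num
    rw [h3] at hw1
    have h4 : (1 : ℝ) ≤ 10 ^ 43 * ((a + (M : ℝ) ^ 2 / r ^ 4) * l ^ 3) := by
      have h5 : (1 : ℝ) ≤ 10 ^ 43 := by norm_num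
      nlinarith
    linarith
  · have h1 := Nat.floor_le hw0
    have h2 : (⌊w⌋₊ : ℝ) ≤ ((7 * M ^ 2 : ℕ) : ℝ) := by
      push_cast
      have : (0 : ℝ) ≤ (M : ℝ) ^ 2 := by positivity
      linarith
    exact_mod_cast h2

end Pool.Agent.Lib.MP_6b2d39_agUp
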