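import Pool.Agent.Lib.MP_6b2d39_agUn.RqL
import Pool.Agent.Lib.MP_6b2d39_agUp.P2Base

set_option autoImplicit false

namespace Pool.Agent.Lib.MP_6b2d39_agUp

open Pool.Agent.Lib.MP_6b2d39_agUn

private theorem rqz_eq {q N b : ℕ} (h : q * (b + 2) ≤ N) :
    rq q N b = rq q N (b + 1) + q ^ 2 := by
  unfold rq
  have h1 : ∀ i ∈ Finset.range q,
      N - (q * b + i) = (N - (q * (b + 1) + i)) + q := by
    intro i hi
    rw [Finset.mem_range] at hi
    have e1 : q * (b + 2) = q * b + 2 * q := by ring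
    have e2 : q * (b + 1) = q * b + q := by ring
    rw [e2]
    rw [e1] at h
    omega
  rw [Finset.sum_congr rfl h1, Finset.sum_add_distrib, Finset.sum_const, Finset.card_range,
    smul_eq_mul, sq]

private theorem rqz_sumi (q : ℕ) : q ^ 2 ≤ 2 * ∑ i ∈ Finset.range q, (q - i) := by
  have h : ∀ n : ℕ, n ≤ q → 2 * q * n ≤ 2 * (∑ i ∈ Finset.range n, (q - i)) + n * n := by
    intro n
    induction n with
    | zero => intro _; simp
    | succ n ih =>
      intro hn
      have ih' := ih (by omega)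
      rw [Finset.sum_range_succ]
      obtain ⟨d, hd⟩ := Nat.exists_eq_add_of_le (show n ≤ q by omega)
      have e : q - n = d := by omega
      rw [e]
      subst hd
      nlinarith [ih']
  have h2 := h q le_rfl
  nlinarith [h2]

private theorem rqz_ge {q N b : ℕ} (h : q * (b + 1) < N) :
    rq q N (b + 1) + ∑ i ∈ Finset.range q, (q - i) ≤ rq q N b := by
  unfold rq
  rw [← Finset.sum_add_distrib]
  apply Finset.sum_le_sum
  intro i hi
  rw [Finset.mem_range] at hi
  have e2 : q * (b + 1) = q * b + q := by ring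
  rw [e2] at h ⊢
  omega

/-- U53. `R b - R (b+1) = q^2` if `q (b + 2) ≤ N`; for `b + 1 < T` always
`2 (R b - R (b+1)) ≥ q^2` (the summands of `R b - R (b+1)` are
`(N - q b - i) - (N - q b - q - i) ≥ q - i`); `rq_sum`, `rq_z`. -/
theorem row_qY {M N q X W Y : ℕ} (h : NcY M N q X W Y) :
    RwA M (rq q N 0) (q ^ 2) ((N + q - 1) / q) (fun b => (rq q N b : ℤ)) := by
  have hM := h.hM
  have hq := h.hq
  have hqN := h.hqN
  have hMq : 1 * q ≤ M * q := Nat.mul_le_mul_right q hM
  have hN1 : 256 * (M * q) ≤ N := by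
    calc 256 * (M * q) = 256 * M * q := by ring
      _ ≤ N := hqN
  have hqN2 : q ≤ N := by omega
  have hlt : ∀ c : ℕ, c < (N + q - 1) / q → q * c < N := by
    intro c hc
    have h1 : c + 1 ≤ (N + q - 1) / q := hc
    rw [Nat.le_div_iff_mul_le (by omega)] at h1
    have e : (c + 1) * q = q * c + q := by ring
    rw [e] at h1
    omega
  have hT : 1 ≤ (N + q - 1) / q := by
    rw [Nat.le_div_iff_mul_le (by omega)]
    omega
  refine ⟨rfl, ?_, ?_, ?_, hT, ?_⟩
  · intro c hc
    have h1 : q * (c + 2) ≤ N := by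
      have h2 : c + 2 ≤ 4 * M := by omega
      have h3 : q * (c + 2) ≤ q * (4 * M) := Nat.mul_le_mul_left q h2
      have e : q * (4 * M) = 4 * (M * q) := by ring
      rw [e] at h3
      omega
    have h2 := rqz_eq h1
    rw [h2]
    push_cast
    ring
  · intro c hc
    have h1 := hlt (c + 1) hc
    have h2 := rqz_ge h1
    have h3 := rqz_sumi q
    have h4 : ((rq q N (c + 1) + ∑ i ∈ Finset.range q, (q - i) : ℕ) : ℤ) ≤ (rq q N c : ℕ) := by
      exact_mod_cast h2
    have h5 : ((q ^ 2 : ℕ) : ℤ) ≤ ((2 * ∑ i ∈ Finset.range q, (q - i) : ℕ) : ℤ) := by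
      exact_mod_cast h3
    rw [Nat.cast_add] at h4
    rw [Nat.cast_mul] at h5
    have h6 : ((2 : ℕ) : ℤ) = 2 := rfl
    rw [h6] at h5
    linarith
  · have h1 := hlt ((N + q - 1) / q - 1) (by omega)
    have h2 : 1 ≤ rq q N ((N + q - 1) / q - 1) := by
      unfold rq
      have h3 : N - (q * ((N + q - 1) / q - 1) + 0) ≤
          ∑ i ∈ Finset.range q, (N - (q * ((N + q - 1) / q - 1) + i)) :=
        Finset.single_le_sum (f := fun i => N - (q * ((N + q - 1) / q - 1) + i))
          (fun i _ => Nat.zero_le _) (Finset.mem_range.2 (by omega))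
      omega
    exact_mod_cast h2
  · have h1 := rq_sum (N := N) (show 1 ≤ q by omega)
    have h2 := (rq_z hqN2).2
    have h3 : 32 * M * rq q N 0 ≤ ∑ c ∈ Finset.range ((N + q - 1) / q), rq q N c := by
      rw [h1]
      have h4 : 2 * (N + 1).choose 2 = (N + 1) * N := by
        rw [Nat.choose_two_right, Nat.add_sub_cancel]
        exact Nat.mul_div_cancel' ((Nat.even_mul_succ_self N).two_dvd.trans (by rw [mul_comm]))
      have h5 : 32 * M * rq q N 0 ≤ 32 * M * (q * N) := Nat.mul_le_mul_left _ h2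
      have h6 : 64 * (M * q) * N ≤ N * N := Nat.mul_le_mul_right N (by omega)
      nlinarith [h4, h5, h6]
    exact_mod_cast h3

end Pool.Agent.Lib.MP_6b2d39_agUp
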