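import Pool.Agent.Lib.MP_6b2d39_agUp.P2Main

/-!
THEOREM U+, the volume: real weights `a i ≤ ε`, degrees `d → ∞`.
-/

set_option autoImplicit false

namespace Pool.Agent.Lib.MP_6b2d39_agUp

open Pool.Agent.Lib.MP_6b2d39_agUn Pool.Agent.Lib.MP_6b2d39_agCr

private theorem vol_choose (k : ℕ) : 2 * (((k + 1).choose 2 : ℕ) : ℝ) = (k : ℝ) * (k + 1) := by
  have h1 : 2 * (k + 1).choose 2 = k * (k + 1) := by
    rw [Nat.choose_two_right, Nat.add_sub_cancel]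
    have h2 : 2 ∣ (k + 1) * k := by
      rw [mul_comm]
      exact (Nat.even_mul_succ_self k).two_dvd
    rw [Nat.mul_div_cancel' h2]
    ring
  have h2 : ((2 * (k + 1).choose 2 : ℕ) : ℝ) = ((k * (k + 1) : ℕ) : ℝ) := by rw [h1]
  push_cast at h2
  exact h2

/-- one multiplicity `k = ⌊x⌋`: `|k (k + 1) - x ^ 2| ≤ x` -/
private theorem vol_one {x : ℝ} (hx : 0 ≤ x) :
    |((⌊x⌋₊ : ℕ) : ℝ) * ((⌊x⌋₊ : ℕ) + 1) - x ^ 2| ≤ x := by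
  have h1 := Nat.floor_le hx
  have h2 := Nat.lt_floor_add_one x
  have h3 : (0 : ℝ) ≤ (⌊x⌋₊ : ℕ) := by positivity
  rw [abs_le]
  constructor
  · rcases le_or_gt 1 x with h4 | h4
    · have h5 : (x - 1) * x ≤ ((⌊x⌋₊ : ℕ) : ℝ) * ((⌊x⌋₊ : ℕ) + 1) :=
        mul_le_mul (by linarith) (by linarith) hx h3
      nlinarith
    · have h5 : x ^ 2 ≤ x := by nlinarith
      have h6 : 0 ≤ ((⌊x⌋₊ : ℕ) : ℝ) * ((⌊x⌋₊ : ℕ) + 1) := by positivity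
      linarith
  · have h5 : ((⌊x⌋₊ : ℕ) : ℝ) * ((⌊x⌋₊ : ℕ) + 1) ≤ x * (x + 1) :=
      mul_le_mul h1 (by linarith) (by linarith) hx
    nlinarith

/-- the virtual dimension of `(d; ⌊a i d⌋)` -/
private theorem vol_vd {n d : ℕ} {a : Fin n → ℝ} {ε : ℝ} (hε : ε ≤ 1)
    (ha : ∀ i, 0 ≤ a i ∧ a i ≤ ε) (hd : 1 ≤ d) :
    |2 * ((vd d (fun i => ⌊a i * d⌋₊) : ℤ) : ℝ) - (1 - ∑ i, a i ^ 2) * (d : ℝ) ^ 2| ≤
      ((n : ℝ) + 5) * d := by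
  have hd1 : (1 : ℝ) ≤ d := by exact_mod_cast hd
  have e1 : 2 * ((vd d (fun i => ⌊a i * d⌋₊) : ℤ) : ℝ) = ((d : ℝ) + 1) * (d + 2) -
      ∑ i, ((⌊a i * d⌋₊ : ℕ) : ℝ) * ((⌊a i * d⌋₊ : ℕ) + 1) := by
    unfold vd
    push_cast
    rw [mul_sub, Finset.mul_sum]
    congr 1
    · have h1 := vol_choose (d + 1)
      have h2 : d + 1 + 1 = d + 2 := rfl
      rw [h2] at h1
      push_cast at h1
      linarith
    · exact Finset.sum_congr rfl fun i _ => vol_choose _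
  have e2 : 2 * ((vd d (fun i => ⌊a i * d⌋₊) : ℤ) : ℝ) - (1 - ∑ i, a i ^ 2) * (d : ℝ) ^ 2 =
      (3 * d + 2) - ∑ i, (((⌊a i * d⌋₊ : ℕ) : ℝ) * ((⌊a i * d⌋₊ : ℕ) + 1) - (a i * d) ^ 2) := by
    rw [e1, Finset.sum_sub_distrib]
    have h1 : ∑ i, (a i * (d : ℝ)) ^ 2 = (∑ i, a i ^ 2) * (d : ℝ) ^ 2 := by
      rw [Finset.sum_mul]
      exact Finset.sum_congr rfl fun i _ => by ring
    rw [h1]
    ring
  rw [e2]
  have h1 : |∑ i, (((⌊a i * d⌋₊ : ℕ) : ℝ) * ((⌊a i * d⌋₊ : ℕ) + 1) - (a i * d) ^ 2)| ≤ (n : ℝ) * d := by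
    refine (Finset.abs_sum_le_sum_abs _ _).trans ?_
    have h2 : ∀ i ∈ (Finset.univ : Finset (Fin n)),
        |((⌊a i * d⌋₊ : ℕ) : ℝ) * ((⌊a i * d⌋₊ : ℕ) + 1) - (a i * d) ^ 2| ≤ (d : ℝ) := by
      intro i _
      have h3 : 0 ≤ a i * d := mul_nonneg (ha i).1 (by linarith)
      refine (vol_one h3).trans ?_
      have h4 : a i ≤ 1 := (ha i).2.trans hε
      nlinarith
    have h3 := Finset.sum_le_card_nsmul (Finset.univ : Finset (Fin n)) _ _ h2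
    rwa [Finset.card_univ, Fintype.card_fin, nsmul_eq_mul] at h3
  have h2 := abs_le.1 h1
  rw [abs_le]
  constructor
  · nlinarith [h2.2]
  · nlinarith [h2.1]

/-- THE VOLUME. For every number `n` of general points, all real weights `a i ∈ [0, ε]`,
`ε ≤ 1 / 2`, and all degrees `d ≥ (n + 5) / ε ^ 12` the dimension of `(d; ⌊a i d⌋)` is
`max (1 - ∑ a i ^ 2) 0 * d ^ 2 / 2` up to an error `C ε ^ 6 log (1 / ε) ^ 3 d ^ 2`. -/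
theorem vol_up : ∃ C : ℝ, ∀ (n d : ℕ) (ε : ℝ) (a : Fin n → ℝ), 0 < ε → ε ≤ 1 / 2 →
    (∀ i, 0 ≤ a i ∧ a i ≤ ε) → ((n : ℝ) + 5) / ε ^ 12 ≤ d →
    General (fun P => |(Module.finrank ℂ (curves d (fun i => ⌊a i * d⌋₊) P) : ℝ) -
      max (1 - ∑ i, a i ^ 2) 0 / 2 * (d : ℝ) ^ 2| ≤
        C * ε ^ 6 * Real.log (1 / ε) ^ 3 * (d : ℝ) ^ 2) := by
  obtain ⟨C0, hC0, h⟩ := dim_up
  refine ⟨128 * C0 + 4, fun n d ε a hε hε2 ha hd => ?_⟩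
  have hn0 : (0 : ℝ) ≤ n := by positivity
  have hp : ∀ k : ℕ, 0 < ε ^ k := fun k => by positivity
  have hk : ∀ k l : ℕ, k ≤ l → ε ^ l ≤ ε ^ k := fun k l hkl =>
    pow_le_pow_of_le_one hε.le (by linarith) hkl
  -- `d` is large
  have hd1 : (n : ℝ) + 5 ≤ d * ε ^ 12 := by rwa [div_le_iff₀ (hp 12)] at hd
  have hdpos : (0 : ℝ) ≤ d := by positivity
  have hd0 : (0 : ℝ) < d := by
    rcases hdpos.lt_or_eq with h1 | h1
    · exact h1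
    · rw [← h1] at hd1
      linarith
  have hdk : ∀ k : ℕ, k ≤ 12 → (n : ℝ) + 5 ≤ d * ε ^ k := fun k hk' =>
    hd1.trans (mul_le_mul_of_nonneg_left (hk k 12 hk') hdpos)
  have hd5 : (5 : ℝ) ≤ d := by
    have := hdk 0 (by norm_num)
    rw [pow_zero] at this
    linarith
  have hdn : 1 ≤ d := by
    have : (1 : ℝ) ≤ d := by linarith
    exact_mod_cast this
  have hεd : 5 ≤ ε * d := by
    have := hdk 1 (by norm_num)
    rw [pow_one] at this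
    linarith
  -- the number `M`
  obtain ⟨M, hM⟩ : ∃ M, M = ⌊ε * d⌋₊ := ⟨_, rfl⟩
  have hM1 : (M : ℝ) ≤ ε * d := by rw [hM]; exact Nat.floor_le (by positivity)
  have hM2 : ε * d < M + 1 := by rw [hM]; exact Nat.lt_floor_add_one _
  have hMp : (1 : ℝ) ≤ M := by linarith
  have hMn : 1 ≤ M := by exact_mod_cast hMp
  have hμ : ∀ i, ⌊a i * d⌋₊ ≤ M := fun i => by
    rw [hM]
    exact Nat.floor_le_floor (mul_le_mul_of_nonneg_right (ha i).2 hdpos)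
  -- the logarithm
  obtain ⟨L, hL⟩ : ∃ L, L = Real.log (1 / ε) := ⟨_, rfl⟩
  have hinv : 2 ≤ 1 / ε := by
    rw [le_div_iff₀ hε]
    linarith
  have hL1 : 1 / 2 ≤ L := by
    rw [hL]
    have h1 := Real.log_two_gt_d9
    have h2 : Real.log 2 ≤ Real.log (1 / ε) := Real.log_le_log (by norm_num) hinv
    linarith
  have hlog : Real.log (((d : ℝ) + 1) / M + 2) ≤ 4 * L := by
    have h1 : ((d : ℝ) + 1) / M ≤ 2 * (1 / ε) := by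
      rw [div_le_iff₀ (by linarith)]
      have h2 : 2 * (1 / ε) * (ε * d - 1) ≤ 2 * (1 / ε) * M :=
        mul_le_mul_of_nonneg_left (by linarith) (by positivity)
      have h3 : 2 * (1 / ε) * (ε * d - 1) = 2 * d - 2 * (1 / ε) := by
        field_simp
      have h4 : 5 * (1 / ε) ≤ d := by
        rw [mul_one_div, div_le_iff₀ hε]
        linarith
      linarith
    have h2 : ((d : ℝ) + 1) / M + 2 ≤ (1 / ε) ^ 4 := by
      have h3 : 8 * (1 / ε) ≤ (1 / ε) ^ 4 := by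
        have h4 : (2 : ℝ) ^ 3 ≤ (1 / ε) ^ 3 := pow_le_pow_left₀ (by norm_num) hinv 3
        have h5 : (1 / ε) ^ 4 = (1 / ε) ^ 3 * (1 / ε) := by ring
        rw [h5]
        have h6 : (8 : ℝ) ≤ (1 / ε) ^ 3 := by linarith
        exact mul_le_mul_of_nonneg_right h6 (by linarith)
      linarith
    have h3 : Real.log (((d : ℝ) + 1) / M + 2) ≤ Real.log ((1 / ε) ^ 4) :=
      Real.log_le_log (by positivity) h2
    rw [Real.log_pow] at h3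
    push_cast at h3
    rw [hL]
    exact h3
  have hlog0 : 0 ≤ Real.log (((d : ℝ) + 1) / M + 2) :=
    Real.log_nonneg (by
      have : (0 : ℝ) ≤ ((d : ℝ) + 1) / M := by positivity
      linarith)
  have hlog3 : Real.log (((d : ℝ) + 1) / M + 2) ^ 3 ≤ 64 * L ^ 3 := by
    have := pow_le_pow_left₀ hlog0 hlog 3
    calc Real.log (((d : ℝ) + 1) / M + 2) ^ 3 ≤ (4 * L) ^ 3 := this
      _ = 64 * L ^ 3 := by ring
  -- the two terms of the window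
  have hT1 : (M : ℝ) ^ (9 / 8 : ℝ) ≤ ε ^ 6 * (d : ℝ) ^ 2 := by
    have h1 : (M : ℝ) ^ (9 / 8 : ℝ) ≤ (M : ℝ) ^ (3 / 2 : ℝ) :=
      Real.rpow_le_rpow_of_exponent_le hMp (by norm_num)
    have h2 : (M : ℝ) ≤ d := by nlinarith
    have h3 : (M : ℝ) ^ (3 / 2 : ℝ) ≤ (d : ℝ) ^ (3 / 2 : ℝ) :=
      Real.rpow_le_rpow (by linarith) h2 (by norm_num)
    have h4 : (d : ℝ) ^ (3 / 2 : ℝ) = d * √(d : ℝ) := by
      rw [show (3 / 2 : ℝ) = 1 + 1 / 2 by norm_num, Real.rpow_add hd0, Real.rpow_one,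
        Real.sqrt_eq_rpow]
    have h5 : 1 ≤ ε ^ 6 * √(d : ℝ) := by
      have h6 : (1 : ℝ) ≤ (ε ^ 6 * √(d : ℝ)) ^ 2 := by
        rw [mul_pow, Real.sq_sqrt hdpos]
        have h7 : (ε ^ 6) ^ 2 = ε ^ 12 := by ring
        rw [h7]
        linarith
      have h8 : 0 ≤ ε ^ 6 * √(d : ℝ) := by positivity
      by_contra hc
      push Not at hc
      have h9 : (ε ^ 6 * √(d : ℝ)) ^ 2 < 1 := by
        rw [sq]
        nlinarith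
      linarith
    have h6 : (d : ℝ) * √(d : ℝ) * 1 ≤ d * √(d : ℝ) * (ε ^ 6 * √(d : ℝ)) :=
      mul_le_mul_of_nonneg_left h5 (by positivity)
    have h7 : (d : ℝ) * √(d : ℝ) * (ε ^ 6 * √(d : ℝ)) = ε ^ 6 * d * (√(d : ℝ) * √(d : ℝ)) := by
      ring
    rw [h7, Real.mul_self_sqrt hdpos] at h6
    calc (M : ℝ) ^ (9 / 8 : ℝ) ≤ (d : ℝ) ^ (3 / 2 : ℝ) := h1.trans h3
      _ = d * √(d : ℝ) * 1 := by rw [h4, mul_one]
      _ ≤ ε ^ 6 * d * d := h6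
      _ = ε ^ 6 * (d : ℝ) ^ 2 := by ring
  have hT2 : (M : ℝ) ^ 6 / ((d : ℝ) + 1) ^ 4 ≤ ε ^ 6 * (d : ℝ) ^ 2 := by
    rw [div_le_iff₀ (by positivity)]
    have h1 : (M : ℝ) ^ 6 ≤ (ε * d) ^ 6 := pow_le_pow_left₀ (by linarith) hM1 6
    have h2 : (d : ℝ) ^ 4 ≤ ((d : ℝ) + 1) ^ 4 := pow_le_pow_left₀ hdpos (by linarith) 4
    have h3 : ε ^ 6 * (d : ℝ) ^ 2 * (d : ℝ) ^ 4 ≤ ε ^ 6 * (d : ℝ) ^ 2 * ((d : ℝ) + 1) ^ 4 :=
      mul_le_mul_of_nonneg_left h2 (by positivity)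
    have h4 : (ε * (d : ℝ)) ^ 6 = ε ^ 6 * (d : ℝ) ^ 2 * (d : ℝ) ^ 4 := by ring
    linarith
  have hL3 : 1 / 8 ≤ L ^ 3 := by
    have := pow_le_pow_left₀ (by norm_num : (0 : ℝ) ≤ 1 / 2) hL1 3
    linarith
  -- the window
  have hW : C0 * ((M : ℝ) ^ (9 / 8 : ℝ) + (M : ℝ) ^ 6 / ((d : ℝ) + 1) ^ 4) *
      Real.log (((d : ℝ) + 1) / M + 2) ^ 3 ≤ 128 * C0 * (ε ^ 6 * L ^ 3 * (d : ℝ) ^ 2) := by
    have h1 : (M : ℝ) ^ (9 / 8 : ℝ) + (M : ℝ) ^ 6 / ((d : ℝ) + 1) ^ 4 ≤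
        2 * (ε ^ 6 * (d : ℝ) ^ 2) := by linarith
    have h2 : C0 * ((M : ℝ) ^ (9 / 8 : ℝ) + (M : ℝ) ^ 6 / ((d : ℝ) + 1) ^ 4) *
        Real.log (((d : ℝ) + 1) / M + 2) ^ 3 ≤
        C0 * (2 * (ε ^ 6 * (d : ℝ) ^ 2)) * (64 * L ^ 3) := by
      refine mul_le_mul (mul_le_mul_of_nonneg_left h1 (by linarith)) hlog3 (by positivity) ?_
      positivity
    have h3 : C0 * (2 * (ε ^ 6 * (d : ℝ) ^ 2)) * (64 * L ^ 3) =
        128 * C0 * (ε ^ 6 * L ^ 3 * (d : ℝ) ^ 2) := by ring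
    linarith
  -- the virtual dimension
  have hv := vol_vd (n := n) (d := d) (a := a) (ε := ε) (by linarith) ha hdn
  have hv2 : |((vd d (fun i => ⌊a i * d⌋₊) : ℤ) : ℝ) - (1 - ∑ i, a i ^ 2) / 2 * (d : ℝ) ^ 2| ≤
      4 * (ε ^ 6 * L ^ 3 * (d : ℝ) ^ 2) := by
    have h1 : ((n : ℝ) + 5) * d ≤ ε ^ 6 * (d : ℝ) ^ 2 := by
      have h2 := mul_le_mul_of_nonneg_right (hdk 6 (by norm_num)) hdpos
      have h3 : (d : ℝ) * ε ^ 6 * d = ε ^ 6 * (d : ℝ) ^ 2 := by ring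
      linarith
    have h2 : ε ^ 6 * (d : ℝ) ^ 2 ≤ 8 * (ε ^ 6 * L ^ 3 * (d : ℝ) ^ 2) := by
      have h3 : ε ^ 6 * (d : ℝ) ^ 2 * (1 / 8) ≤ ε ^ 6 * (d : ℝ) ^ 2 * L ^ 3 :=
        mul_le_mul_of_nonneg_left hL3 (by positivity)
      have h4 : ε ^ 6 * L ^ 3 * (d : ℝ) ^ 2 = ε ^ 6 * (d : ℝ) ^ 2 * L ^ 3 := by ring
      rw [h4]
      linarith
    have h3 := abs_le.1 hv
    rw [abs_le]
    constructor
    · linarith [h3.1]
    · linarith [h3.2]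
  refine (h n d M (fun i => ⌊a i * d⌋₊) hMn hμ).mono ?_
  rintro P ⟨h1, h2⟩
  have h1' : max ((vd d (fun i => ⌊a i * d⌋₊) : ℤ) : ℝ) 0 ≤
      (Module.finrank ℂ (curves d (fun i => ⌊a i * d⌋₊) P) : ℝ) := by
    have h3 : ((max (vd d (fun i => ⌊a i * d⌋₊)) 0 : ℤ) : ℝ) ≤
        ((Module.finrank ℂ (curves d (fun i => ⌊a i * d⌋₊) P) : ℤ) : ℝ) := by exact_mod_cast h1
    push_cast at h3
    exact h3
  have hmax : max (1 - ∑ i, a i ^ 2) 0 / 2 * (d : ℝ) ^ 2 =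
      max ((1 - ∑ i, a i ^ 2) / 2 * (d : ℝ) ^ 2) 0 := by
    have h3 : max (1 - ∑ i, a i ^ 2) 0 / 2 * (d : ℝ) ^ 2 =
        max (1 - ∑ i, a i ^ 2) 0 * ((d : ℝ) ^ 2 / 2) := by ring
    rw [h3, max_mul_of_nonneg _ _ (by positivity), zero_mul]
    congr 1
    ring
  rw [hmax]
  have h4 := abs_max_sub_max_le_abs ((vd d (fun i => ⌊a i * d⌋₊) : ℤ) : ℝ)
    ((1 - ∑ i, a i ^ 2) / 2 * (d : ℝ) ^ 2) 0
  have h5 := abs_le.1 (h4.trans hv2)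
  have hfin : (128 * C0 + 4) * ε ^ 6 * L ^ 3 * (d : ℝ) ^ 2 =
      128 * C0 * (ε ^ 6 * L ^ 3 * (d : ℝ) ^ 2) + 4 * (ε ^ 6 * L ^ 3 * (d : ℝ) ^ 2) := by ring
  have hW0 : 0 ≤ 128 * C0 * (ε ^ 6 * L ^ 3 * (d : ℝ) ^ 2) := by
    have : 0 ≤ L ^ 3 := by linarith
    positivity
  rw [← hL, hfin, abs_le]
  constructor
  · linarith [h5.1]
  · linarith [h5.2]

end Pool.Agent.Lib.MP_6b2d39_agUp
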