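import Pool.Agent.Lib.MP_6b2d39_agUp.StepB
import Pool.Agent.Lib.MP_6b2d39_agUp.StepA
import Pool.Agent.Lib.MP_6b2d39_agUp.BlkHi
import Pool.Agent.Lib.MP_6b2d39_agUp.BlkLo
import Pool.Agent.Lib.MP_6b2d39_agUp.OpsA
import Pool.Agent.Lib.MP_6b2d39_agUp.OpBZ

set_option autoImplicit false

namespace Pool.Agent.Lib.MP_6b2d39_agUp

open Pool.Agent.Lib.MP_6b2d39_agUn

open Pool.Agent.Lib.MP_6b2d39_agArr

variable {ι : Type} [DecidableEq ι]

/-- U26 (PHASE 1): induction on the number of pending points; largest point first -/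
theorem phase {P : Pa} {R : ℕ → ℤ} (hR : Rw P R) {m : ι → ℕ} {v0 : ℤ}
    (hv : -(3000 * P.w * v0) ≤ (P.y0 : ℤ) ^ 3) {Z : Finset ι} {J0 : Finset ι}
    (hJZ : Disjoint J0 Z)
    (hfin : ∀ J ⊆ J0, ∀ (y : ℕ) (D : ℕ → ℤ) (K : List ℤ) (V : ℕ → ℤ), St P R m v0 J y D K V →
      (J = ∅ ∨ (y ≤ 3 * P.M ∧ y ≤ P.y0)) → Cert m (J ∪ Z) y D) :
    ∀ J ⊆ J0, ∀ (y : ℕ) (D : ℕ → ℤ) (K : List ℤ) (V : ℕ → ℤ), St P R m v0 J y D K V →
      Cert m (J ∪ Z) y D := by
  intro J
  induction J using Finset.strongInduction with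
  | H J ih =>
    intro hJ0 y D K V h
    by_cases hc : J = ∅ ∨ (y ≤ 3 * P.M ∧ y ≤ P.y0)
    · exact hfin J hJ0 y D K V h hc
    · have hne : J.Nonempty := by
        rcases Finset.eq_empty_or_nonempty J with h0 | h0
        · exact absurd (Or.inl h0) hc
        · exact h0
      have hyy : 3 * P.M < y ∨ P.y0 < y := by
        by_contra h1
        exact hc (Or.inr ⟨by omega, by omega⟩)
      obtain ⟨j, hj, hmax⟩ := Finset.exists_max_image J m hne
      have hjZ : j ∉ Z := fun hz => (Finset.disjoint_left.mp hJZ) (hJ0 hj) hz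
      have hsub : J.erase j ⊆ J0 := (Finset.erase_subset j J).trans hJ0
      have hss : J.erase j ⊂ J := Finset.erase_ssubset hj
      by_cases hN : nd m J D (y - 1) ≤ min ((y : ℤ) - 1) (m j)
      · have hB : ∃ L, Blk P R m J y D K j L := by
          rcases Nat.lt_or_ge (3 * P.M) y with h3 | h3
          · exact blk_hi hR h h3 hj hmax hN
          · exact blk_lo hR h (by omega) hv (by omega) h3 hj hmax hN
        obtain ⟨L, hL⟩ := hB
        have hst := step_b hR h hL hyy
        have hcert := ih (J.erase j) hss hsub L _ _ _ hst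
        exact op_b (Finset.disjoint_of_subset_left hJ0 hJZ) hj hL.b1 hL.b3 hL.b4 hcert
      · have hN' : min ((y : ℤ) - 1) (m j) < nd m J D (y - 1) := not_le.mp hN
        have hst := step_a hR h hj hmax hN'
        have hcert := ih (J.erase j) hss hsub y _ _ _ hst
        have hjU : j ∈ J ∪ Z := Finset.mem_union_left Z hj
        refine op_a hjU ?_
        have he : (J ∪ Z).erase j = J.erase j ∪ Z := by
          rw [Finset.erase_union_distrib, Finset.erase_eq_of_notMem hjZ]
        rw [he]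
        exact hcert

end Pool.Agent.Lib.MP_6b2d39_agUp
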