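import Pool.Agent.Lib.MP_6b2d39_agUp.LemS

set_option autoImplicit false

namespace Pool.Agent.Lib.MP_6b2d39_agUp

open Pool.Agent.Lib.MP_6b2d39_agUn

open Pool.Agent.Lib.MP_6b2d39_agArr

variable {ι : Type} [DecidableEq ι]

private theorem step6_aux {P : Pa} {R : ℕ → ℤ} (hR : Rw P R) {m : ι → ℕ} {v0 : ℤ} {J : Finset ι} {y : ℕ}
    {D : ℕ → ℤ} {K : List ℤ} {V : ℕ → ℤ} (h : St P R m v0 J y D K V) {j : ι} {L : ℕ}
    (hB : Blk P R m J y D K j L) (hy : y ≤ 3 * P.M) {b0 : ℕ} (hL : L ≤ b0) (hm : m j ≤ b0) :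
    ∀ b, b0 ≤ b → b < y →
      (P.z : ℤ) * ((b : ℤ) - b0) ≤ 2 * P.M * (nd m J D b0 - nd m J D b) := by
  intro b hb
  induction b, hb using Nat.le_induction with
  | base => intro _; simp
  | succ b hb ih =>
    intro hby
    have h1 := ih (by omega)
    have h2 := prof (m := m) (J := J) h.i1 hby
    have h3 := h.i3b b hby
    have hmj : m j ≤ P.M := h.hm1 j hB.hj
    have h4 : nd m J D (b + 1) ≤ P.M := by
      have h5 := (hB.b3 (b + 1) (by omega) hby).2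
      have h6 := le_trans h5 (min_le_right _ _)
      have h7 : ((m j : ℕ) : ℤ) ≤ (P.M : ℤ) := by exact_mod_cast hmj
      exact h6.trans h7
    have h5 : (P.z : ℤ) ≤ 2 * P.M * sl R m J K b :=
      lem_s hR h hy hby (fun i hi => (hB.hmax i hi).trans (hm.trans hb)) h4
    have h6 : (2 * P.M : ℤ) * sl R m J K b ≤ 2 * P.M * (nd m J D b - nd m J D (b + 1)) := by
      apply mul_le_mul_of_nonneg_left
      · linarith
      · positivity
    push_cast
    linarith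

private theorem step6_len {P : Pa} {R : ℕ → ℤ} (hR : Rw P R) {m : ι → ℕ} {v0 : ℤ} {J : Finset ι} {y : ℕ}
    {D : ℕ → ℤ} {K : List ℤ} {V : ℕ → ℤ} (h : St P R m v0 J y D K V) {j : ι} {L : ℕ}
    (hB : Blk P R m J y D K j L) (hy : y ≤ 3 * P.M) {b0 : ℕ} (hL : L ≤ b0) (hm : m j ≤ b0)
    (hb0 : b0 < y) : y + 1 ≤ b0 + P.w := by
  have h1 := step6_aux hR h hB hy hL hm (y - 1) (by omega) (by omega)
  have h2 := (hB.b3 (y - 1) (by have := hB.b1; omega) (by omega)).1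
  have h3 := le_trans (hB.b3 b0 hL hb0).2 (min_le_right _ _)
  have hmj : ((m j : ℕ) : ℤ) ≤ (P.M : ℤ) := by exact_mod_cast h.hm1 j hB.hj
  have hM : (1 : ℤ) ≤ P.M := by exact_mod_cast P.hM
  have h4 : (2 * P.M : ℤ) * (nd m J D b0 - nd m J D (y - 1)) ≤ 2 * P.M * P.M := by
    apply mul_le_mul_of_nonneg_left
    · linarith
    · positivity
  have e1 : (((y - 1 : ℕ) : ℤ) - b0) = ((y - 1 - b0 : ℕ) : ℤ) := by omega
  rw [e1] at h1
  have h5 : P.z * (y - 1 - b0) ≤ 2 * P.M ^ 2 := by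
    have h6 : (P.z : ℤ) * ((y - 1 - b0 : ℕ) : ℤ) ≤ 2 * P.M * P.M := h1.trans h4
    have h7 : ((P.z * (y - 1 - b0) : ℕ) : ℤ) ≤ ((2 * P.M * P.M : ℕ) : ℤ) := by
      push_cast
      exact h6
    have h8 : P.z * (y - 1 - b0) ≤ 2 * P.M * P.M := by exact_mod_cast h7
    calc P.z * (y - 1 - b0) ≤ 2 * P.M * P.M := h8
      _ = 2 * P.M ^ 2 := by ring
  have hz : 0 < P.z := by
    have h6 := P.hz
    have h7 : 0 < 16 * P.M * P.Q := by
      have := P.hM
      have := P.hQ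
      positivity
    omega
  have h6 : y - 1 - b0 ≤ 2 * P.M ^ 2 / P.z := by
    rw [Nat.le_div_iff_mul_le hz, mul_comm]
    exact h5
  have h7 := P.hw
  omega

/-- U22. density of kinks after a block: new kink `t = y - 1 - m j`. If `s > t`: old `i6` with `j`. If
`s ≤ t`: `s ≥ L - m i ≥ t + 1 - l`, `l = y - L`; show `l ≤ w`: `y ≤ 3 M` (otherwise `s > M`, by `b6`);
the block rows `≥ m j` are at most `w - 1` (`lem_s`: slopes `≥ z / 2M`, `N ≤ M`), and `t ≥ w` says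
that all block rows are `≥ m j`. -/
theorem step6 {P : Pa} {R : ℕ → ℤ} (hR : Rw P R) {m : ι → ℕ} {v0 : ℤ} {J : Finset ι} {y : ℕ}
    {D : ℕ → ℤ} {K : List ℤ} {V : ℕ → ℤ} (h : St P R m v0 J y D K V) {j : ι} {L : ℕ}
    (hB : Blk P R m J y D K j L) : ∀ i ∈ J.erase j, ∀ s : ℤ, (P.w : ℤ) ≤ s → s ≤ P.M →
      (L : ℤ) - 1 - m i < s → ∃ t ∈ (((y : ℤ) - 1 - m j) :: K), s ≤ t ∧ t < s + P.w := by
  intro i hi s hs1 hs2 hs3
  have hiJ : i ∈ J := Finset.mem_of_mem_erase hi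
  have hmij : m i ≤ m j := hB.hmax i hiJ
  have hmj : m j ≤ P.M := h.hm1 j hB.hj
  rcases lt_or_ge ((y : ℤ) - 1 - m j) s with hlt | hge
  · obtain ⟨t, ht, h1, h2⟩ := h.i6 j hB.hj s hs1 hs2 hlt
    exact ⟨t, List.mem_cons_of_mem _ ht, h1, h2⟩
  · refine ⟨(y : ℤ) - 1 - m j, List.mem_cons_self, hge, ?_⟩
    have hb1 := hB.b1
    have hb2 := hB.b2
    have hy : y ≤ 3 * P.M := by
      by_contra hc
      omega
    have hLm : m j ≤ L := by
      by_contra hc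
      have h1 : L ≤ m j := by omega
      have h2 := step6_len hR h hB hy h1 le_rfl (by omega)
      omega
    have h3 := step6_len hR h hB hy le_rfl hLm hb1
    omega

end Pool.Agent.Lib.MP_6b2d39_agUp
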