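import Pool.Agent.Lib.MP_6b2d39_agUp.PlLe
import Pool.Agent.Lib.MP_6b2d39_agUp.PlF
import Pool.Agent.Lib.MP_6b2d39_agUp.VTop

set_option autoImplicit false

namespace Pool.Agent.Lib.MP_6b2d39_agUp

open Pool.Agent.Lib.MP_6b2d39_agUn

open Pool.Agent.Lib.MP_6b2d39_agArr

variable {ι : Type} [DecidableEq ι]

private theorem st8_X (P : Pa) : 16 ≤ P.X := P.hX16

/-- U24. `i8` after a block. If `2 M ≤ L`: `V c = pl c = 0`, `V (L-1) + pl (L-1) ≤ M ≤ L`. If
`L < 2 M` then `y ≤ 3 M` (`b2`, `b6`): `psi_step` with `δ = [t < c]`, `pl_le`, `pl_facts`, `v_top`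
(`Vs ≤ Bs`), `hs_step`; for `c = 0` everything is `0` (`pl_facts`: `pl 0 = 0` if `t ≥ 0`; for `t < 0` use
`N b ≥ 1`). -/
theorem step8 {P : Pa} {R : ℕ → ℤ} (hR : Rw P R) {m : ι → ℕ} {v0 : ℤ} {J : Finset ι} {y : ℕ}
    {D : ℕ → ℤ} {K : List ℤ} {V : ℕ → ℤ} (h : St P R m v0 J y D K V) {j : ι} {L : ℕ}
    (hB : Blk P R m J y D K j L) (hyy : 3 * P.M < y ∨ P.y0 < y) (hlt : P.y0 < 3 * P.M) :
    L ≤ 3 * P.M → ∀ c : ℕ, 16 * c ≤ P.M → c < L →
    ((V c + pl m (nd m J D) j L y c : ℤ) : ℝ) +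
      P.ka * c * ((V (L - 1) + pl m (nd m J D) j L y (L - 1) : ℤ) : ℝ) / L ≤
      nk (((y : ℤ) - 1 - m j) :: K) c + 13 * c * hs (3 * P.M) L +
        P.ka * P.Bs * c / L + 2 * P.ka * c := by
  intro hL3 c hc hcL
  have hX := st8_X P
  have hXR : (16 : ℝ) ≤ P.X := by exact_mod_cast hX
  have hL0 := hB.b0
  have hLy := hB.b1
  have hmj := h.hm1 j hB.hj
  have hM := P.hM
  have hka0 : 0 ≤ P.ka := by unfold Pa.ka; positivity
  have hka1 : P.ka ≤ 3 / 640 := by
    unfold Pa.ka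
    rw [div_le_div_iff₀ (by positivity) (by norm_num)]
    linarith
  have hkaX : P.ka * P.X = 3 / 40 := by
    unfold Pa.ka
    field_simp
  obtain ⟨f1, f2, f3, f4⟩ := pl_facts h hB c
  obtain ⟨g1, g2, g3, g4⟩ := pl_facts h hB (L - 1)
  have hLR : (1 : ℝ) ≤ L := by exact_mod_cast hL0
  have hLyR : (L : ℝ) ≤ y := by exact_mod_cast hLy.le
  have hcR : (0 : ℝ) ≤ c := by positivity
  have hyR : (0 : ℝ) < y := by linarith
  have hnk : nk (((y : ℤ) - 1 - m j) :: K) c = nk K c +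
      if (y : ℤ) - 1 - m j < c then 1 else 0 := by
    unfold nk
    rw [List.countP_cons]
    simp only [decide_eq_true_eq]
  by_cases hy : y ≤ 3 * P.M
  · have hy0 : P.y0 ≤ y := by
      rcases hyy with h1 | h1
      · omega
      · exact h1.le
    have hold := h.i8 hlt hy c hc (by omega)
    have hVm : V (L - 1) ≤ V (y - 1) := v_mono h.i3b (by omega) (by omega)
    have hlog := hs_step (n := 3 * P.M) hLy.le hy
    have hW0 : (0 : ℝ) ≤ (V (y - 1) : ℝ) - V (L - 1) := by
      have : (V (L - 1) : ℝ) ≤ V (y - 1) := by exact_mod_cast hVm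
      linarith
    have hVy : (V (y - 1) : ℝ) ≤ P.Bs + P.X * y := by
      have h1 : V (y - 1) ≤ P.Bs + P.X * y := by
        have h2 := v_top hR h hlt
        have h3 : P.Vs ≤ P.Bs := min_le_right _ _
        have h4 : (P.Vs : ℤ) ≤ P.Bs := by exact_mod_cast h3
        linarith
      exact_mod_cast h1
    have hVL : ((V (L - 1) + pl m (nd m J D) j L y (L - 1) : ℤ) : ℝ) ≤
        (V (y - 1) : ℝ) - ((V (y - 1) : ℝ) - V (L - 1)) + ((y : ℝ) - L) := by
      have h1 : (pl m (nd m J D) j L y (L - 1) : ℤ) ≤ (y : ℤ) - L := by omega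
      have h2 : (pl m (nd m J D) j L y (L - 1) : ℝ) ≤ (y : ℝ) - L := by exact_mod_cast h1
      push_cast
      linarith
    have hVc : ((V c + pl m (nd m J D) j L y c : ℤ) : ℝ) ≤ (V c : ℝ) +
        ((if (y : ℤ) - 1 - m j < c then 1 else 0 : ℕ) : ℝ) + 8 * c * ((y : ℝ) - L) / L +
        P.ka * c / L * ((V (y - 1) : ℝ) - V (L - 1)) := by
      push_cast
      by_cases ht : (y : ℤ) - 1 - m j < c
      · have h1 := pl_le hR h hB hy0 hy hc ht
        rw [if_pos ht]
        linarith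
      · rw [if_neg ht, f4 (by omega)]
        have h1 : 0 ≤ 8 * (c : ℝ) * ((y : ℝ) - L) / L := by
          apply div_nonneg _ (by linarith)
          exact mul_nonneg (by positivity) (by linarith)
        have h2 : 0 ≤ P.ka * c / L * ((V (y - 1) : ℝ) - V (L - 1)) :=
          mul_nonneg (by positivity) hW0
        push_cast
        linarith
    have h3L : 2 * (y : ℝ) ≤ 3 * L := by exact_mod_cast hB.b2
    have key := psi_step (X := P.X) (Bs := P.Bs) (by linarith : (0 : ℝ) < L) hLyR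
      h3L hcR hka0 (by linarith) hold hVc hVL hVy hlog
    rw [hnk]
    push_cast at key ⊢
    linarith
  · push Not at hy
    have hVc : V c = 0 := by
      have h1 := h.i3c c (by omega)
      have h2 := h.i3a c (by omega)
      rw [max_eq_right (by omega)] at h1
      omega
    have hpc : pl m (nd m J D) j L y c = 0 := f4 (by omega)
    have hVL : V (L - 1) + pl m (nd m J D) j L y (L - 1) ≤ L := by
      have h1 := h.i3c (L - 1) (by omega)
      have h2 := h.i3a (L - 1) (by omega)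
      have h3 := hB.b2
      rcases max_choice (((L - 1 : ℕ) : ℤ) + P.M + 1 - y) 0 with h4 | h4
      · rw [h4] at h1
        omega
      · rw [h4] at h1
        rcases max_choice (((L - 1 : ℕ) : ℤ) + P.M - L) 0 with h5 | h5
        · rw [h5] at g3
          omega
        · rw [h5] at g3
          omega
    have hVLR : ((V (L - 1) + pl m (nd m J D) j L y (L - 1) : ℤ) : ℝ) ≤ L := by exact_mod_cast hVL
    have e1 : P.ka * c * ((V (L - 1) + pl m (nd m J D) j L y (L - 1) : ℤ) : ℝ) / L ≤ P.ka * c := by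
      rw [div_le_iff₀ (by linarith)]
      exact mul_le_mul_of_nonneg_left hVLR (by positivity)
    have e2 := hs_nonneg (3 * P.M) L
    have e3 : 0 ≤ 13 * (c : ℝ) * hs (3 * P.M) L := mul_nonneg (by positivity) e2
    have e6 : 0 ≤ P.ka * c := mul_nonneg hka0 hcR
    have e4 : 0 ≤ P.ka * P.Bs * c / L := by positivity
    have e5 : (0 : ℝ) ≤ nk (((y : ℤ) - 1 - m j) :: K) c := by positivity
    rw [hVc, hpc]
    push_cast at e1 ⊢
    linarith

end Pool.Agent.Lib.MP_6b2d39_agUp
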