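import Pool.Agent.Lib.MP_6b2d39_agUp.Step4
import Pool.Agent.Lib.MP_6b2d39_agUp.Step6
import Pool.Agent.Lib.MP_6b2d39_agUp.Step7
import Pool.Agent.Lib.MP_6b2d39_agUp.Step8
import Pool.Agent.Lib.MP_6b2d39_agUp.OpBZ
import Pool.Agent.Lib.MP_6b2d39_agUp.Prof

set_option autoImplicit false

namespace Pool.Agent.Lib.MP_6b2d39_agUp

open Pool.Agent.Lib.MP_6b2d39_agUn

open Pool.Agent.Lib.MP_6b2d39_agArr

variable {ι : Type} [DecidableEq ι]

/-- U25 (OpB keeps the state; assembly) -/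
theorem step_b {P : Pa} {R : ℕ → ℤ} (hR : Rw P R) {m : ι → ℕ} {v0 : ℤ} {J : Finset ι} {y : ℕ}
    {D : ℕ → ℤ} {K : List ℤ} {V : ℕ → ℤ} (h : St P R m v0 J y D K V) {j : ι} {L : ℕ}
    (hB : Blk P R m J y D K j L) (hyy : 3 * P.M < y ∨ P.y0 < y) :
    St P R m v0 (J.erase j) L (fun c => D c - ld ((y : ℤ) - 1 - m j) c -
      pl m (nd m J D) j L y c) (((y : ℤ) - 1 - m j) :: K)
      (fun c => V c + pl m (nd m J D) j L y c) := by
  have hb0 := hB.b0
  have hb1 := hB.b1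
  have hyT := h.hyT
  have hmj := h.hm1 j hB.hj
  have hb2 := hB.b2
  have hM := P.hM
  refine ⟨hb0, by omega, by omega, fun i hi => h.hm1 i (Finset.mem_of_mem_erase hi),
    fun hlt i hi => h.hm2 hlt i (Finset.mem_of_mem_erase hi), ?_, ?_, ?_, ?_, ?_, step4 h hB, ?_,
    step6 hR h hB, fun hlt c hc => step7 hR h hlt hB.hj hc, fun hlt => step8 hR h hB hyy hlt⟩
  · intro c hc
    have e1 : lds (((y : ℤ) - 1 - m j) :: K) c = ld ((y : ℤ) - 1 - m j) c + lds K c := by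
      simp [lds]
    have e2 := h.i1 c (by omega)
    rw [e1, e2]
    ring
  · intro t ht
    rcases List.mem_cons.mp ht with ht | ht
    · rw [ht]
      omega
    · have := h.i2 t ht
      omega
  · intro c hc
    have e1 := h.i3a c (by omega)
    omega
  · intro c hc
    have e1 := h.i3b c (by omega)
    obtain ⟨-, e2, -, -⟩ := pl_facts h hB c
    omega
  · intro c hc
    have e1 := h.i3c c (by omega)
    obtain ⟨f1, -, f3, -⟩ := pl_facts h hB c
    omega
  · rw [← h.i5]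
    exact sum_b hB.hj hb1 hB.b3 hB.b4

end Pool.Agent.Lib.MP_6b2d39_agUp
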